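import Mathlib

set_option autoImplicit false
set_option linter.unusedSectionVars false

/-! # Short covers by circuits from six cycles that cover every edge four times
(copied from helper455's files TH455/TFA/Six.lean and Cov.lean) -/

namespace Pool.Agent.TH435.BF.Short

open Finset

/-- all degrees are even, where a loop counts twice -/
def Cyc {V E : Type} [DecidableEq V] (src dst : E → V) (C : Finset E) : Prop :=
  ∀ v, Even (∑ e ∈ C, ((if src e = v then 1 else 0) + (if dst e = v then 1 else 0)))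

/-- six cycles cover every edge exactly four times -/
def Six {V E : Type} [DecidableEq V] [DecidableEq E] (src dst : E → V) : Prop :=
  ∃ C : Fin 6 → Finset E, (∀ i, Cyc src dst (C i)) ∧
    ∀ e, (univ.filter (fun i => e ∈ C i)).card = 4

variable {V E : Type} [Fintype V] [DecidableEq V] [Fintype E] [DecidableEq E]

/-- minimal nonempty cycles -/
def Circ (src dst : E → V) (C : Finset E) : Prop :=
  C.Nonempty ∧ Cyc src dst C ∧ ∀ D ⊆ C, D.Nonempty → Cyc src dst D → D = C

theorem cyc_sdiff {src dst : E → V} {C D : Finset E} (h : C ⊆ D) (hC : Cyc src dst C)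
    (hD : Cyc src dst D) : Cyc src dst (D \ C) := by
  intro v
  have h1 := sum_sdiff (f := fun e => ((if src e = v then 1 else 0) + (if dst e = v then 1 else 0)))
    h
  have h2 := hC v
  have h3 := hD v
  rw [← h1] at h3
  exact (Nat.even_add.mp h3).mpr h2

/-- a cycle is the disjoint union of circuits -/
theorem decomp {src dst : E → V} (n : ℕ) : ∀ D : Finset E, D.card = n → Cyc src dst D →
    ∃ F : Multiset (Finset E), (∀ C ∈ F, Circ src dst C) ∧ (∀ e ∈ D, ∃ C ∈ F, e ∈ C) ∧
      (F.map Finset.card).sum = D.card := by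
  classical
  induction n using Nat.strong_induction_on with
  | _ n ih =>
    intro D hn hD
    by_cases h0 : D.Nonempty
    · have hex : ((D.powerset).filter (fun C => C.Nonempty ∧ Cyc src dst C)).Nonempty :=
        ⟨D, mem_filter.mpr ⟨mem_powerset_self D, h0, hD⟩⟩
      obtain ⟨C, hC, hmin⟩ := exists_min_image _ (fun C : Finset E => C.card) hex
      rw [mem_filter, mem_powerset] at hC
      obtain ⟨hCD, hne, hcyc⟩ := hC
      have hcirc : Circ src dst C := by
        refine ⟨hne, hcyc, fun B hB hBn hBc => ?_⟩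
        have h1 := hmin B (mem_filter.mpr ⟨mem_powerset.mpr (hB.trans hCD), hBn, hBc⟩)
        exact eq_of_subset_of_card_le hB h1
      have hcard : (D \ C).card + C.card = D.card := card_sdiff_add_card_eq_card hCD
      have hpos : 0 < C.card := card_pos.mpr hne
      obtain ⟨F, f1, f2, f3⟩ := ih (D \ C).card (by omega) (D \ C) rfl (cyc_sdiff hCD hcyc hD)
      refine ⟨C ::ₘ F, ?_, ?_, ?_⟩
      · intro B hB
        rcases Multiset.mem_cons.mp hB with h | h
        · rw [h]; exact hcirc
        · exact f1 B h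
      · intro e he
        by_cases heC : e ∈ C
        · exact ⟨C, Multiset.mem_cons_self _ _, heC⟩
        · obtain ⟨B, hB, heB⟩ := f2 e (mem_sdiff.mpr ⟨he, heC⟩)
          exact ⟨B, Multiset.mem_cons_of_mem hB, heB⟩
      · rw [Multiset.map_cons, Multiset.sum_cons, f3]
        omega
    · rw [not_nonempty_iff_eq_empty] at h0
      subst h0
      exact ⟨0, by simp, by simp, by simp⟩

/-- the edges in an odd number of the cycles `C i`, `i ∈ T` -/
def odd (C : Fin 6 → Finset E) (T : Finset (Fin 6)) : Finset E :=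
  univ.filter (fun e => (T.filter (fun i => e ∈ C i)).card % 2 = 1)

theorem cyc_odd {src dst : E → V} {C : Fin 6 → Finset E} (hC : ∀ i, Cyc src dst (C i))
    (T : Finset (Fin 6)) : Cyc src dst (odd C T) := by
  intro v
  rw [← ZMod.natCast_eq_zero_iff_even]
  have h1 : ∑ i ∈ T, (((∑ e ∈ C i, ((if src e = v then 1 else 0) +
      (if dst e = v then 1 else 0)) : ℕ)) : ZMod 2) = 0 :=
    sum_eq_zero fun i _ => (ZMod.natCast_eq_zero_iff_even).mpr (hC i v)
  refine Eq.trans ?_ h1
  have h2 : ∀ i, (((∑ e ∈ C i, ((if src e = v then 1 else 0) +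
      (if dst e = v then 1 else 0)) : ℕ)) : ZMod 2) =
      ∑ e, if e ∈ C i then (((if src e = v then 1 else 0) +
        (if dst e = v then 1 else 0) : ℕ) : ZMod 2) else 0 := by
    intro i
    rw [Nat.cast_sum, sum_ite_mem, univ_inter]
  rw [sum_congr rfl fun i _ => h2 i, sum_comm, Nat.cast_sum]
  unfold odd
  rw [sum_filter]
  refine sum_congr rfl fun e _ => ?_
  rw [← sum_filter, sum_const, nsmul_eq_mul]
  have h3 : ((T.filter (fun i => e ∈ C i)).card : ZMod 2) =
      if (T.filter (fun i => e ∈ C i)).card % 2 = 1 then 1 else 0 := by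
    rcases Nat.mod_two_eq_zero_or_one (T.filter (fun i => e ∈ C i)).card with h | h
    · rw [if_neg (by omega)]
      exact (ZMod.natCast_eq_zero_iff_even).mpr (Nat.even_iff.mpr h)
    · rw [if_pos h]
      exact (ZMod.natCast_eq_one_iff_odd).mpr (Nat.odd_iff.mpr h)
  rw [h3]
  split_ifs <;> simp

/-- the ordered triples of distinct indices -/
def TT : Finset (Fin 6 × Fin 6 × Fin 6) :=
  univ.filter (fun t => t.1 ≠ t.2.1 ∧ t.1 ≠ t.2.2 ∧ t.2.1 ≠ t.2.2)

/-- the indicator of an odd intersection -/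
def io (S T : Finset (Fin 6)) : ℕ := if (T.filter (fun i => i ∈ S)).card % 2 = 1 then 1 else 0

set_option maxRecDepth 100000 in
theorem tt_card : TT.card = 120 := by decide +kernel

set_option maxRecDepth 100000 in
theorem io_sum : ∀ S : Finset (Fin 6), S.card = 4 →
    ∑ t ∈ TT, (io S {t.1, t.2.1, t.2.2} + io S {t.1, t.2.1} + io S {t.1, t.2.2}) = 176 := by
  decide +kernel

set_option maxRecDepth 100000 in
theorem io_pos : ∀ S : Finset (Fin 6), S.card = 4 → ∀ t ∈ TT,
    0 < io S {t.1, t.2.1, t.2.2} + io S {t.1, t.2.1} + io S {t.1, t.2.2} := by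
  decide +kernel

/-- the set of indices of the cycles through the edge -/
def ix (C : Fin 6 → Finset E) (e : E) : Finset (Fin 6) := univ.filter (fun i => e ∈ C i)

theorem mem_odd {C : Fin 6 → Finset E} {T : Finset (Fin 6)} {e : E} :
    (if e ∈ odd C T then 1 else 0) = io (ix C e) T := by
  unfold odd io ix
  simp only [mem_filter, mem_univ, true_and]

theorem card_odd (C : Fin 6 → Finset E) (T : Finset (Fin 6)) :
    (odd C T).card = ∑ e, io (ix C e) T := by
  rw [sum_congr rfl fun e _ => (mem_odd (C := C) (T := T) (e := e)).symm, sum_ite_mem, univ_inter,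
    sum_const, smul_eq_mul, mul_one]

/-- three cycles of total length at most `22 / 15` times the number of edges -/
theorem short_cyc {src dst : E → V} (h : Six src dst) :
    ∃ C₁ C₂ C₃ : Finset E, Cyc src dst C₁ ∧ Cyc src dst C₂ ∧ Cyc src dst C₃ ∧
      C₁ ∪ C₂ ∪ C₃ = univ ∧ 15 * (C₁.card + C₂.card + C₃.card) ≤ 22 * Fintype.card E := by
  obtain ⟨C, hC, h4'⟩ := h
  have h4 : ∀ e, (ix C e).card = 4 := h4'
  obtain ⟨t, ht, hle⟩ := exists_le_of_sum_le (s := TT)
    (f := fun t => 15 * ((odd C {t.1, t.2.1, t.2.2}).card + (odd C {t.1, t.2.1}).card +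
      (odd C {t.1, t.2.2}).card)) (g := fun _ => 22 * Fintype.card E)
    (by rw [← card_pos, tt_card]; norm_num) (by
      rw [← mul_sum, sum_const, tt_card]
      have h1 : ∀ t : Fin 6 × Fin 6 × Fin 6, (odd C {t.1, t.2.1, t.2.2}).card +
          (odd C {t.1, t.2.1}).card + (odd C {t.1, t.2.2}).card =
          ∑ e, (io (ix C e) {t.1, t.2.1, t.2.2} + io (ix C e) {t.1, t.2.1} +
            io (ix C e) {t.1, t.2.2}) := by
        intro t
        rw [card_odd, card_odd, card_odd, sum_add_distrib, sum_add_distrib]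
      rw [sum_congr rfl fun t _ => h1 t, sum_comm, sum_congr rfl fun e _ => io_sum _ (h4 e),
        sum_const, card_univ, smul_eq_mul, smul_eq_mul]
      omega)
  refine ⟨odd C {t.1, t.2.1, t.2.2}, odd C {t.1, t.2.1}, odd C {t.1, t.2.2}, cyc_odd hC _,
    cyc_odd hC _, cyc_odd hC _, ?_, hle⟩
  ext e
  simp only [mem_union, mem_univ, iff_true]
  have h1 := io_pos _ (h4 e) t ht
  rw [← mem_odd, ← mem_odd, ← mem_odd] at h1
  by_contra hcon
  push Not at hcon
  obtain ⟨⟨h2, h3⟩, h5⟩ := hcon
  rw [if_neg h2, if_neg h3, if_neg h5] at h1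
  exact absurd h1 (by norm_num)

/-- a cover by circuits -/
theorem short_cover {src dst : E → V} (h : Six src dst) :
    ∃ F : Multiset (Finset E), (∀ C ∈ F, Circ src dst C) ∧ (∀ e, ∃ C ∈ F, e ∈ C) ∧
      15 * (F.map Finset.card).sum ≤ 22 * Fintype.card E := by
  obtain ⟨C₁, C₂, C₃, h1, h2, h3, hu, hle⟩ := short_cyc h
  obtain ⟨F₁, a1, a2, a3⟩ := decomp _ C₁ rfl h1
  obtain ⟨F₂, b1, b2, b3⟩ := decomp _ C₂ rfl h2
  obtain ⟨F₃, c1, c2, c3⟩ := decomp _ C₃ rfl h3
  refine ⟨F₁ + F₂ + F₃, ?_, ?_, ?_⟩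
  · intro C hC
    rw [Multiset.mem_add, Multiset.mem_add] at hC
    rcases hC with (h | h) | h
    · exact a1 C h
    · exact b1 C h
    · exact c1 C h
  · intro e
    have he : e ∈ C₁ ∪ C₂ ∪ C₃ := by rw [hu]; exact mem_univ e
    rw [mem_union, mem_union] at he
    rcases he with (h | h) | h
    · obtain ⟨C, hC, heC⟩ := a2 e h
      exact ⟨C, by rw [Multiset.mem_add, Multiset.mem_add]; exact Or.inl (Or.inl hC), heC⟩
    · obtain ⟨C, hC, heC⟩ := b2 e h
      exact ⟨C, by rw [Multiset.mem_add, Multiset.mem_add]; exact Or.inl (Or.inr hC), heC⟩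
    · obtain ⟨C, hC, heC⟩ := c2 e h
      exact ⟨C, by rw [Multiset.mem_add, Multiset.mem_add]; exact Or.inr hC, heC⟩
  · rw [Multiset.map_add, Multiset.map_add, Multiset.sum_add, Multiset.sum_add, a3, b3, c3]
    exact hle

end Pool.Agent.TH435.BF.Short
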