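import Pool.Agent.TH435.BF.Six
import Pool.Agent.H76R2.TW.Bip
import Pool.Agent.H76R2.TY.Tight2

/-!
# Induction over tight cuts
-/

set_option autoImplicit false

namespace Pool.Agent.TH435.BF

open Finset H840R6 H76FC

variable {V : Type} [Fintype V] [DecidableEq V]

variable {p : V → V → ℕ} {A B : Finset V}

namespace Near

theorem card_eq (h : Near p A B) (X : Finset V) : X.card = nn A X + nn B X := by
  unfold nn
  rw [← card_union_of_disjoint]
  · congr 1
    ext z
    have := h.all z
    simp only [mem_union, mem_inter]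
    tauto
  · rw [disjoint_left]
    intro z h1 h2
    simp only [mem_inter] at h1 h2
    exact disjoint_left.1 h.disj h1.1 h2.1

theorem side (h : Near p A B) {X : Finset V} (hX : Odd X.card) (hc : cut p X = 3) :
    nn A X ≤ nn B X + 1 ∨ (nn A X ≤ nn B X + 3 ∧ up A B p X = 0) := by
  have h1 := bal (k := 3) (h := fun a => ∑ a' ∈ A, p a a') (fun a _ => h.degA a) h.degB X
  have h2 : wt A (fun a => ∑ a' ∈ A, p a a') X ≤ 6 := by
    rw [← h.inner]
    unfold wt
    refine sum_le_sum fun a _ => ?_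
    split_ifs
    · exact le_refl _
    · exact Nat.zero_le _
  have h3 := cut_eq h.disj h.all h.rg.symm h.B0 X
  have h4 := Nat.odd_iff.1 hX
  rw [h.card_eq] at h4
  omega

theorem zside (h : Near p A B) {X : Finset V}
    (hs : nn A X ≤ nn B X + 1 ∨ (nn A X ≤ nn B X + 3 ∧ up A B p X = 0))
    {U : Type} [Fintype U] [DecidableEq U] (f : U → V) (hf : Function.Injective f)
    (hr : ∀ v, v ∈ X ↔ ∃ u, f u = v) (c : U → ℕ) (hc : ∀ u, c u = ∑ v ∈ Xᶜ, p (f u) v) :
    ∃ Z' : Finset (Option U), (∀ s ∈ Z', ∀ t ∈ Z', T1.contr (fun u v => p (f u) (f v)) c s t = 0) ∧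
      Fintype.card (Option U) ≤ 2 * Z'.card + 2 := by
  have hU : Fintype.card U = nn A X + nn B X := by
    rw [← h.card_eq, ← card_univ, ← card_image_of_injective univ hf]
    congr 1
    ext v
    simp only [mem_image, mem_univ, true_and]
    exact (hr v).symm
  have hZ : (univ.filter (fun u : U => f u ∈ B)).card = nn B X := by
    unfold nn
    rw [← card_image_of_injective _ hf]
    congr 1
    ext v
    simp only [mem_image, mem_filter, mem_univ, true_and, mem_inter]
    constructor
    · rintro ⟨u, h1, rfl⟩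
      exact ⟨h1, (hr _).2 ⟨u, rfl⟩⟩
    · rintro ⟨h1, h2⟩
      obtain ⟨u, rfl⟩ := (hr _).1 h2
      exact ⟨u, h1, rfl⟩
  set Z0 : Finset (Option U) := (univ.filter (fun u : U => f u ∈ B)).map Function.Embedding.some
    with hZ0
  have hZ0c : Z0.card = nn B X := by rw [hZ0, card_map, hZ]
  have hmem : ∀ s ∈ Z0, ∃ u, s = some u ∧ f u ∈ B := by
    intro s hs'
    rw [hZ0, mem_map] at hs'
    obtain ⟨u, hu, rfl⟩ := hs'
    exact ⟨u, rfl, (mem_filter.1 hu).2⟩
  rcases hs with hs | ⟨hs, hup⟩
  · refine ⟨Z0, ?_, ?_⟩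
    · intro s hs' t ht
      obtain ⟨u, rfl, hu⟩ := hmem s hs'
      obtain ⟨w, rfl, hw⟩ := hmem t ht
      exact h.B0 _ hu _ hw
    · rw [Fintype.card_option, hZ0c, hU]
      omega
  · have hc0 : ∀ u, f u ∈ B → c u = 0 := by
      intro u hu
      rw [hc u]
      refine sum_eq_zero fun v hv => ?_
      rcases h.all v with hvA | hvB
      · have h1 := E_single_le A B p hvA hu (R := Xᶜ) (Q := X) hv ((hr _).2 ⟨u, rfl⟩)
        have h2 : E A B p Xᶜ X = 0 := hup
        rw [h.rg.symm]
        omega
      · exact h.B0 _ hu _ hvB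
    refine ⟨insert none Z0, ?_, ?_⟩
    · intro s hs' t ht
      rw [mem_insert] at hs' ht
      rcases hs' with rfl | hs' <;> rcases ht with rfl | ht
      · rfl
      · obtain ⟨w, rfl, hw⟩ := hmem t ht
        exact hc0 w hw
      · obtain ⟨w, rfl, hw⟩ := hmem s hs'
        exact hc0 w hw
      · obtain ⟨u, rfl, hu⟩ := hmem s hs'
        obtain ⟨w, rfl, hw⟩ := hmem t ht
        exact h.B0 _ hu _ hw
    · rw [card_insert_of_notMem, Fintype.card_option, hZ0c, hU]
      · omega
      · intro h1
        obtain ⟨u, hu, _⟩ := hmem _ h1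
        exact absurd hu (by simp)

end Near

theorem cover_main : ∀ n : ℕ, ∀ (V : Type) [Fintype V] [DecidableEq V], Fintype.card V = n →
    ∀ p : V → V → ℕ, RGraph 3 p → ∀ Z : Finset V, (∀ u ∈ Z, ∀ v ∈ Z, p u v = 0) →
      Fintype.card V ≤ 2 * Z.card + 2 → Cover 2 3 p := by
  intro n
  induction n using Nat.strong_induction_on with
  | _ n ih =>
  intro V _ _ hV p hp Z hZ hZc
  have hVe : Even (Fintype.card V) := by
    by_contra hodd
    have := hp.odd univ (by simpa using hodd)
    simp [H76FC.cut] at this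
  by_cases hbip : Fintype.card V ≤ 2 * Z.card
  · refine cover_of_col hp ?_
    exact H76TW.bip V 3 p univ Z (H76TW.span V 2 3 p hp).1 (Finset.subset_univ _)
      (by rw [Finset.card_univ]; exact hbip) hZ
  have hcard : Zᶜ.card = Z.card + 2 := by
    have h1 := Finset.card_add_card_compl Z
    have h2 := Nat.even_iff.1 hVe
    omega
  have hN : Near p Zᶜ Z := ⟨hp, disjoint_compl_left, fun x => by
    rw [mem_compl]; exact (em (x ∈ Z)).symm, hZ, hcard⟩
  by_cases hnt : H76TX.NoTight 3 p
  · exact hN.cover_nt hnt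
  · unfold H76TX.NoTight at hnt
    push Not at hnt
    obtain ⟨X, hX, hc, hX1, hX2⟩ := hnt
    have hadd' : X.card + Xᶜ.card = Fintype.card V := Finset.card_add_card_compl X
    have hodd' : Odd Xᶜ.card := by
      rw [← hadd'] at hVe
      exact (Nat.even_add'.1 hVe).1 hX
    have hcardX : Fintype.card {v // v ∈ X} + Fintype.card {v // v ∉ X}
        = Fintype.card V := by
      rw [← Fintype.card_sum]
      exact Fintype.card_congr (Equiv.sumCompl (· ∈ X))
    have hcX : Fintype.card {v // v ∈ X} = X.card := by simp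
    have hcX' : Fintype.card {v // v ∉ X} = Xᶜ.card := by
      rw [hcX] at hcardX
      omega
    have hX3 : 3 ≤ X.card := by obtain ⟨c, hc'⟩ := hX; omega
    have hX3' : 3 ≤ Xᶜ.card := by obtain ⟨c, hc'⟩ := hodd'; omega
    set e : V ≃ {v // v ∈ X} ⊕ {v // v ∉ X} := (Equiv.sumCompl (· ∈ X)).symm with he
    set p' : {v // v ∈ X} ⊕ {v // v ∉ X} → {v // v ∈ X} ⊕ {v // v ∉ X} → ℕ :=
      fun a b => p (e.symm a) (e.symm b) with hp'
    have hpe : ∀ u v, p u v = p' (e u) (e v) := by intro u v; simp [hp']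
    obtain ⟨h1, h2, h3'⟩ := transport V _ e p p' 2 3 hpe
    have hRp' := h1 hp
    have hl : ∀ u : {v // v ∈ X}, e.symm (.inl u) = u.1 := fun u => rfl
    have hr : ∀ u : {v // v ∉ X}, e.symm (.inr u) = u.1 := fun u => rfl
    have hsum : ∑ u, ∑ v, p' (.inl u) (.inr v) = 3 := by
      rw [← hc]
      simp only [hp', hl, hr, cut]
      rw [← Finset.sum_coe_sort X]
      apply Finset.sum_congr rfl
      intro u _
      exact (Finset.sum_subtype (Xᶜ) (fun x => by simp) (fun v => p u.1 v)).symm
    have hO1 : Odd (Fintype.card {v // v ∈ X}) := by rw [hcX]; exact hX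
    have hO2 : Odd (Fintype.card {v // v ∉ X}) := by rw [hcX']; exact hodd'
    apply h2
    refine H76TY.tight2 _ _ 2 3 p' hRp' hO1 hO2 hsum ?_ ?_
    · intro hR
      obtain ⟨Z', hZ1, hZ2⟩ := hN.zside (hN.side hX hc) (U := {v // v ∈ X}) Subtype.val
        Subtype.val_injective (fun v => by simp)
        (fun u => ∑ v, p' (.inl u) (.inr v)) (fun u => by
          simp only [hp', hl, hr]
          exact (Finset.sum_subtype (Xᶜ) (fun x => by simp) (fun v => p u.1 v)).symm)
      refine ih _ ?_ (Option {v // v ∈ X}) rfl _ hR Z' hZ1 hZ2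
      rw [Fintype.card_option, hcX]
      omega
    · intro hR
      have hc' : cut p Xᶜ = 3 := by rw [cutCompl V p X hp.symm]; exact hc
      obtain ⟨Z', hZ1, hZ2⟩ := hN.zside (hN.side hodd' hc') (U := {v // v ∉ X}) Subtype.val
        Subtype.val_injective (fun v => by simp)
        (fun u => ∑ v, p' (.inr u) (.inl v)) (fun u => by
          simp only [hp', hl, hr, compl_compl]
          rw [Finset.sum_coe_sort X (fun v => p u.1 v)])
      refine ih _ ?_ (Option {v // v ∉ X}) rfl _ hR Z' hZ1 hZ2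
      rw [Fintype.card_option, hcX']
      omega

end Pool.Agent.TH435.BF
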