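import Pool.Agent.H840R6.Gale
import Pool.Agent.H76R2.FC.Basic

/-!
# Cut functions of nearly bipartite multigraphs
-/

set_option autoImplicit false

namespace Pool.Agent.TH435.BF

open Finset H840R6

variable {V : Type} [Fintype V] [DecidableEq V]

/-- weight of the pairs `a ∈ A ∩ R`, `b ∈ B ∩ Q` -/
def E (A B : Finset V) (q : V → V → ℕ) (R Q : Finset V) : ℕ :=
  ∑ a ∈ A, ∑ b ∈ B, if a ∈ R ∧ b ∈ Q then q a b else 0

omit [Fintype V] in
theorem E_union_left (A B : Finset V) (q : V → V → ℕ) {R R' : Finset V} (Q : Finset V)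
    (h : Disjoint R R') : E A B q (R ∪ R') Q = E A B q R Q + E A B q R' Q := by
  unfold E
  rw [← sum_add_distrib]
  refine sum_congr rfl fun a _ => ?_
  rw [← sum_add_distrib]
  refine sum_congr rfl fun b _ => ?_
  have h1 : a ∈ R → a ∉ R' := fun h0 => disjoint_left.1 h h0
  by_cases h2 : a ∈ R
  · have h3 := h1 h2
    simp [h2, h3]
  · by_cases h3 : a ∈ R' <;> simp [h2, h3]

omit [Fintype V] in
theorem E_union_right (A B : Finset V) (q : V → V → ℕ) (R : Finset V) {Q Q' : Finset V}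
    (h : Disjoint Q Q') : E A B q R (Q ∪ Q') = E A B q R Q + E A B q R Q' := by
  unfold E
  rw [← sum_add_distrib]
  refine sum_congr rfl fun a _ => ?_
  rw [← sum_add_distrib]
  refine sum_congr rfl fun b _ => ?_
  have h1 : b ∈ Q → b ∉ Q' := fun h0 => disjoint_left.1 h h0
  by_cases h2 : b ∈ Q
  · have h3 := h1 h2
    simp [h2, h3]
  · by_cases h3 : b ∈ Q' <;> simp [h2, h3]

omit [Fintype V] in
theorem E_mono (A B : Finset V) (q : V → V → ℕ) {R R' Q Q' : Finset V} (h : R ⊆ R') (h' : Q ⊆ Q') :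
    E A B q R Q ≤ E A B q R' Q' := by
  unfold E
  refine sum_le_sum fun a _ => sum_le_sum fun b _ => ?_
  by_cases h1 : a ∈ R ∧ b ∈ Q
  · rw [if_pos h1, if_pos ⟨h h1.1, h' h1.2⟩]
  · rw [if_neg h1]; exact Nat.zero_le _

omit [Fintype V] in
theorem E_le (A B : Finset V) {q q' : V → V → ℕ} (R Q : Finset V)
    (h : ∀ a ∈ A, ∀ b ∈ B, a ∈ R → b ∈ Q → q a b ≤ q' a b) : E A B q R Q ≤ E A B q' R Q := by
  unfold E
  refine sum_le_sum fun a ha => sum_le_sum fun b hb => ?_
  by_cases h1 : a ∈ R ∧ b ∈ Q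
  · rw [if_pos h1, if_pos h1]; exact h a ha b hb h1.1 h1.2
  · rw [if_neg h1, if_neg h1]

omit [Fintype V] in
theorem E_single_le (A B : Finset V) (q : V → V → ℕ) {R Q : Finset V} {a b : V} (ha : a ∈ A)
    (hb : b ∈ B) (haR : a ∈ R) (hbQ : b ∈ Q) : q a b ≤ E A B q R Q := by
  unfold E
  have h1 : (if a ∈ R ∧ b ∈ Q then q a b else 0) = q a b := if_pos ⟨haR, hbQ⟩
  calc q a b = (if a ∈ R ∧ b ∈ Q then q a b else 0) := h1.symm
    _ ≤ ∑ y ∈ B, (if a ∈ R ∧ y ∈ Q then q a y else 0) :=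
        single_le_sum (f := fun y => if a ∈ R ∧ y ∈ Q then q a y else 0)
          (fun _ _ => Nat.zero_le _) hb
    _ ≤ _ := single_le_sum (f := fun x => ∑ y ∈ B, if x ∈ R ∧ y ∈ Q then q x y else 0)
          (fun _ _ => Nat.zero_le _) ha

omit [Fintype V] in
theorem E_pos (A B : Finset V) (q : V → V → ℕ) {R Q : Finset V} (h : E A B q R Q ≠ 0) :
    ∃ a ∈ A, ∃ b ∈ B, a ∈ R ∧ b ∈ Q ∧ q a b ≠ 0 := by
  by_contra hcon
  push Not at hcon
  apply h
  unfold E
  refine sum_eq_zero fun a ha => sum_eq_zero fun b hb => ?_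
  by_cases h1 : a ∈ R ∧ b ∈ Q
  · rw [if_pos h1]; exact hcon a ha b hb h1.1 h1.2
  · rw [if_neg h1]

/-- edges from `B ∩ X` to `A \ X` -/
def up (A B : Finset V) (q : V → V → ℕ) (X : Finset V) : ℕ := E A B q Xᶜ X

/-- edges from `A ∩ X` to `B \ X` -/
def dn (A B : Finset V) (q : V → V → ℕ) (X : Finset V) : ℕ := E A B q X Xᶜ

theorem up_compl (A B : Finset V) (q : V → V → ℕ) (X : Finset V) :
    up A B q Xᶜ = dn A B q X := by unfold up dn; rw [compl_compl]

theorem dn_compl (A B : Finset V) (q : V → V → ℕ) (X : Finset V) :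
    dn A B q Xᶜ = up A B q X := by unfold up dn; rw [compl_compl]

theorem dn_submod (A B : Finset V) (q : V → V → ℕ) (X Y : Finset V) :
    dn A B q (X ∪ Y) + dn A B q (X ∩ Y) ≤ dn A B q X + dn A B q Y := by
  unfold dn E
  rw [← sum_add_distrib, ← sum_add_distrib]
  refine sum_le_sum fun a _ => ?_
  rw [← sum_add_distrib, ← sum_add_distrib]
  refine sum_le_sum fun b _ => ?_
  by_cases h1 : a ∈ X <;> by_cases h2 : a ∈ Y <;> by_cases h3 : b ∈ X <;>
    by_cases h4 : b ∈ Y <;> simp [h1, h2, h3, h4]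

theorem up_submod (A B : Finset V) (q : V → V → ℕ) (X Y : Finset V) :
    up A B q (X ∪ Y) + up A B q (X ∩ Y) ≤ up A B q X + up A B q Y := by
  unfold up E
  rw [← sum_add_distrib, ← sum_add_distrib]
  refine sum_le_sum fun a _ => ?_
  rw [← sum_add_distrib, ← sum_add_distrib]
  refine sum_le_sum fun b _ => ?_
  by_cases h1 : a ∈ X <;> by_cases h2 : a ∈ Y <;> by_cases h3 : b ∈ X <;>
    by_cases h4 : b ∈ Y <;> simp [h1, h2, h3, h4]

theorem posimod (A B : Finset V) (q : V → V → ℕ) (X Y : Finset V) :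
    up A B q (X \ Y) + dn A B q (Y \ X) ≤ up A B q X + dn A B q Y := by
  have h := up_submod A B q X Yᶜ
  have h1 : X ∩ Yᶜ = X \ Y := by ext z; simp
  have h2 : (X ∪ Yᶜ) = (Y \ X)ᶜ := by
    ext z
    simp only [mem_union, mem_compl, mem_sdiff]
    tauto
  rw [h1, h2, up_compl, up_compl] at h
  omega

/-- number of vertices of `A` in `X` -/
def nn (A X : Finset V) : ℕ := (A ∩ X).card

omit [Fintype V] in
theorem nn_mod (A X Y : Finset V) : nn A (X ∪ Y) + nn A (X ∩ Y) = nn A X + nn A Y := by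
  unfold nn
  have h1 : A ∩ (X ∪ Y) = (A ∩ X) ∪ (A ∩ Y) := inter_union_distrib_left _ _ _
  have h2 : A ∩ (X ∩ Y) = (A ∩ X) ∩ (A ∩ Y) := by
    ext z
    simp only [mem_inter]
    tauto
  rw [h1, h2]
  exact card_union_add_card_inter _ _

omit [Fintype V] in
theorem nn_sdiff (A X Y : Finset V) : nn A (X \ Y) + nn A (X ∩ Y) = nn A X := by
  unfold nn
  rw [← card_union_of_disjoint]
  · congr 1
    ext z
    simp only [mem_union, mem_inter, mem_sdiff]
    tauto
  · rw [disjoint_left]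
    intro z h1 h2
    simp only [mem_inter, mem_sdiff] at h1 h2
    exact h1.2.2 h2.2.2

theorem nn_compl (A X : Finset V) : nn A X + nn A Xᶜ = A.card := by
  unfold nn
  rw [← card_union_of_disjoint]
  · congr 1
    ext z
    simp only [mem_union, mem_inter, mem_compl]
    tauto
  · rw [disjoint_left]
    intro z h1 h2
    simp only [mem_inter, mem_compl] at h1 h2
    exact h2.2 h1.2

/-- indicator -/
def ii (x : V) (X : Finset V) : ℕ := if x ∈ X then 1 else 0

omit [Fintype V] in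
theorem ii_mod (x : V) (X Y : Finset V) : ii x (X ∪ Y) + ii x (X ∩ Y) = ii x X + ii x Y := by
  unfold ii
  by_cases h1 : x ∈ X <;> by_cases h2 : x ∈ Y <;> simp [h1, h2]

omit [Fintype V] in
theorem ii_sdiff (x : V) (X Y : Finset V) : ii x (X \ Y) + ii x (X ∩ Y) = ii x X := by
  unfold ii
  by_cases h1 : x ∈ X <;> by_cases h2 : x ∈ Y <;> simp [h1, h2]

theorem ii_compl (x : V) (X : Finset V) : ii x X + ii x Xᶜ = 1 := by
  unfold ii
  by_cases h1 : x ∈ X <;> simp [h1]

omit [Fintype V] in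
theorem ii_le (x : V) (X : Finset V) : ii x X ≤ 1 := by
  unfold ii
  split_ifs <;> omega

omit [Fintype V] in
theorem ii_mono (x : V) {X Y : Finset V} (h : X ⊆ Y) : ii x X ≤ ii x Y := by
  unfold ii
  by_cases h1 : x ∈ X
  · simp [h1, h h1]
  · simp [h1]

/-- the pair `xy` as a multigraph -/
def pr (x y : V) (a b : V) : ℕ :=
  (if a = x ∧ b = y then 1 else 0) + (if a = y ∧ b = x then 1 else 0)

/-- does the pair `xy` cross `X`? -/
def cr (x y : V) (X : Finset V) : ℕ :=
  (if x ∈ X ∧ y ∉ X then 1 else 0) + (if y ∈ X ∧ x ∉ X then 1 else 0)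

omit [Fintype V] in
theorem cr_cases (x y : V) (X : Finset V) :
    (ii x X = 0 ∧ ii y X = 0 ∧ cr x y X = 0) ∨ (ii x X = 1 ∧ ii y X = 0 ∧ cr x y X = 1) ∨
    (ii x X = 0 ∧ ii y X = 1 ∧ cr x y X = 1) ∨ (ii x X = 1 ∧ ii y X = 1 ∧ cr x y X = 0) := by
  unfold ii cr
  by_cases h1 : x ∈ X <;> by_cases h2 : y ∈ X <;> simp [h1, h2]

omit [Fintype V] in
theorem sum_pair (A : Finset V) {x y : V} (hx : x ∈ A) (hy : y ∈ A) (P : V → V → Prop)
    [∀ a b, Decidable (P a b)] :
    ∑ a ∈ A, ∑ b ∈ A, (if P a b then (if a = x ∧ b = y then 1 else 0) else 0) =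
      if P x y then 1 else 0 := by
  rw [sum_eq_single x]
  · rw [sum_eq_single y]
    · simp
    · intro b _ hb
      simp [hb]
    · intro h; exact absurd hy h
  · intro a _ ha
    refine sum_eq_zero fun b _ => ?_
    simp [ha]
  · intro h; exact absurd hx h

/-- crossing weight of a pair -/
theorem E_pr (A : Finset V) {x y : V} (hx : x ∈ A) (hy : y ∈ A) (X : Finset V) :
    E A A (pr x y) X Xᶜ = cr x y X := by
  unfold E pr cr
  have h : ∀ a b : V, (if a ∈ X ∧ b ∈ Xᶜ then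
      ((if a = x ∧ b = y then 1 else 0) + (if a = y ∧ b = x then 1 else 0)) else 0) =
      (if a ∈ X ∧ b ∈ Xᶜ then (if a = x ∧ b = y then 1 else 0) else 0) +
      (if a ∈ X ∧ b ∈ Xᶜ then (if a = y ∧ b = x then 1 else 0) else 0) := by
    intro a b
    split_ifs <;> rfl
  simp only [h, sum_add_distrib]
  rw [sum_pair A hx hy (fun a b => a ∈ X ∧ b ∈ Xᶜ), sum_pair A hy hx (fun a b => a ∈ X ∧ b ∈ Xᶜ)]
  simp only [mem_compl]

omit [Fintype V] in
theorem E_add (A B : Finset V) (q q' : V → V → ℕ) (R Q : Finset V) :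
    E A B (fun a b => q a b + q' a b) R Q = E A B q R Q + E A B q' R Q := by
  unfold E
  rw [← sum_add_distrib]
  refine sum_congr rfl fun a _ => ?_
  rw [← sum_add_distrib]
  refine sum_congr rfl fun b _ => ?_
  split_ifs <;> rfl

omit [Fintype V] in
theorem E_congr (A B : Finset V) {q q' : V → V → ℕ} (R Q : Finset V)
    (h : ∀ a ∈ A, ∀ b ∈ B, q a b = q' a b) : E A B q R Q = E A B q' R Q := by
  unfold E
  refine sum_congr rfl fun a ha => sum_congr rfl fun b hb => ?_
  rw [h a ha b hb]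

/-- the cut of a symmetric multigraph without edges inside `B` -/
theorem cut_eq {A B : Finset V} (hd : Disjoint A B) (hall : ∀ x, x ∈ A ∨ x ∈ B)
    {q : V → V → ℕ} (hs : ∀ x y, q x y = q y x) (hB : ∀ x ∈ B, ∀ y ∈ B, q x y = 0)
    (X : Finset V) :
    H76FC.cut q X = up A B q X + dn A B q X + E A A q X Xᶜ := by
  have hU : (univ : Finset V) = A ∪ B := by
    ext x
    simpa using hall x
  have h1 : H76FC.cut q X = ∑ u, ∑ v, if u ∈ X ∧ v ∈ Xᶜ then q u v else 0 := by
    unfold H76FC.cut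
    rw [← sum_filter_add_sum_filter_not univ (fun u => u ∈ X)]
    have e1 : ∑ u ∈ univ.filter (fun u => ¬ u ∈ X), ∑ v, (if u ∈ X ∧ v ∈ Xᶜ then q u v else 0) = 0 := by
      refine sum_eq_zero fun u hu => sum_eq_zero fun v _ => ?_
      rw [mem_filter] at hu
      simp [hu.2]
    rw [e1, add_zero]
    have e2 : univ.filter (fun u => u ∈ X) = X := by ext; simp
    rw [e2]
    refine sum_congr rfl fun u hu => ?_
    rw [← sum_filter_add_sum_filter_not univ (fun v => v ∈ Xᶜ)]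
    have e3 : ∑ v ∈ univ.filter (fun v => ¬ v ∈ Xᶜ), (if u ∈ X ∧ v ∈ Xᶜ then q u v else 0) = 0 := by
      refine sum_eq_zero fun v hv => ?_
      rw [mem_filter] at hv
      simp only [hv.2, and_false, if_false]
    rw [e3, add_zero]
    have e4 : univ.filter (fun v => v ∈ Xᶜ) = Xᶜ := by ext; simp
    rw [e4]
    refine sum_congr rfl fun v hv => ?_
    rw [if_pos ⟨hu, hv⟩]
  rw [h1, hU, sum_union hd]
  have e1 : ∀ u, ∑ v ∈ A ∪ B, (if u ∈ X ∧ v ∈ Xᶜ then q u v else 0) =
      ∑ v ∈ A, (if u ∈ X ∧ v ∈ Xᶜ then q u v else 0) +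
      ∑ v ∈ B, (if u ∈ X ∧ v ∈ Xᶜ then q u v else 0) := fun u => sum_union hd
  simp only [e1, sum_add_distrib]
  have e2 : ∑ u ∈ B, ∑ v ∈ B, (if u ∈ X ∧ v ∈ Xᶜ then q u v else 0) = 0 := by
    refine sum_eq_zero fun u hu => sum_eq_zero fun v hv => ?_
    rw [hB u hu v hv]
    split_ifs <;> rfl
  have e3 : ∑ u ∈ B, ∑ v ∈ A, (if u ∈ X ∧ v ∈ Xᶜ then q u v else 0) = up A B q X := by
    unfold up E
    rw [sum_comm]
    refine sum_congr rfl fun v _ => sum_congr rfl fun u _ => ?_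
    rw [hs u v]
    by_cases hu : u ∈ X <;> by_cases hv : v ∈ Xᶜ <;> simp [hu, hv]
  rw [e2, e3]
  unfold dn E
  omega

/-- balance -/
theorem bal {A B : Finset V} {q : V → V → ℕ} {k : ℕ} {h : V → ℕ}
    (hA : ∀ a ∈ A, ∑ b ∈ B, q a b + h a = k) (hB : ∀ b ∈ B, ∑ a ∈ A, q a b = k) (X : Finset V) :
    up A B q X + k * nn A X = dn A B q X + wt A h X + k * nn B X := by
  have h1 : dn A B q X + E A B q X X + wt A h X = k * nn A X := by
    unfold dn E wt nn
    rw [← sum_add_distrib, ← sum_add_distrib, mul_comm, ← smul_eq_mul, ← sum_const,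
      ← sum_filter_add_sum_filter_not A (fun a => a ∈ X)]
    have e0 : A.filter (fun a => a ∈ X) = A ∩ X := by ext; simp
    have e1 : ∑ a ∈ A.filter (fun a => ¬ a ∈ X), (∑ b ∈ B, (if a ∈ X ∧ b ∈ Xᶜ then q a b else 0) +
        ∑ b ∈ B, (if a ∈ X ∧ b ∈ X then q a b else 0) + (if a ∈ X then h a else 0)) = 0 := by
      refine sum_eq_zero fun a ha => ?_
      rw [mem_filter] at ha
      simp [ha.2]
    rw [e1, add_zero, e0]
    refine sum_congr rfl fun a ha => ?_
    rw [mem_inter] at ha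
    rw [if_pos ha.2, ← hA a ha.1, ← sum_add_distrib]
    congr 1
    refine sum_congr rfl fun b _ => ?_
    by_cases hb : b ∈ X <;> simp [ha.2, hb]
  have h2 : up A B q X + E A B q X X = k * nn B X := by
    unfold up E nn
    rw [sum_comm (s := A) (t := B), sum_comm (s := A) (t := B), ← sum_add_distrib, mul_comm,
      ← smul_eq_mul, ← sum_const, ← sum_filter_add_sum_filter_not B (fun a => a ∈ X)]
    have e0 : B.filter (fun a => a ∈ X) = B ∩ X := by ext; simp
    have e1 : ∑ b ∈ B.filter (fun a => ¬ a ∈ X), (∑ a ∈ A, (if a ∈ Xᶜ ∧ b ∈ X then q a b else 0) +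
        ∑ a ∈ A, (if a ∈ X ∧ b ∈ X then q a b else 0)) = 0 := by
      refine sum_eq_zero fun a ha => ?_
      rw [mem_filter] at ha
      simp [ha.2]
    rw [e1, add_zero, e0]
    refine sum_congr rfl fun b hb => ?_
    rw [mem_inter] at hb
    rw [← hB b hb.1, ← sum_add_distrib]
    refine sum_congr rfl fun a _ => ?_
    by_cases ha : a ∈ X <;> simp [ha, hb.2]
  omega

omit [Fintype V] in
theorem wt_single (A : Finset V) {x : V} (hx : x ∈ A) (k : ℕ) (X : Finset V) :
    wt A (fun a => if a = x then k else 0) X = k * ii x X := by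
  unfold wt ii
  rw [sum_eq_single x]
  · by_cases h : x ∈ X <;> simp [h]
  · intro b _ hb
    simp [hb]
  · intro h; exact absurd hx h

omit [Fintype V] in
theorem wt_add (A : Finset V) (f g : V → ℕ) (X : Finset V) :
    wt A (fun a => f a + g a) X = wt A f X + wt A g X := by
  unfold wt
  rw [← sum_add_distrib]
  refine sum_congr rfl fun a _ => ?_
  split_ifs <;> rfl

end Pool.Agent.TH435.BF
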