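import Pool.Agent.TH435.BF.Flow

/-!
# Existence of the flow
-/

set_option autoImplicit false

namespace Pool.Agent.TH435.BF

open Finset H840R6

variable {V : Type} [Fintype V] [DecidableEq V]

variable {p : V → V → ℕ} {A B : Finset V} {x₁ y₁ x₂ y₂ u v : V}

omit [Fintype V] in
theorem E_one {a₀ w₀ : V} (ha : a₀ ∈ A) (hw : w₀ ∈ B) (R Q : Finset V) :
    E A B (fun a b => if a = a₀ ∧ b = w₀ then 1 else 0) R Q =
      if a₀ ∈ R ∧ w₀ ∈ Q then 1 else 0 := by
  unfold E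
  rw [sum_eq_single a₀]
  · rw [sum_eq_single w₀]
    · simp
    · intro b _ hb
      simp [hb]
    · intro h; exact absurd hw h
  · intro a _ ha'
    refine sum_eq_zero fun b _ => ?_
    simp [ha']
  · intro h; exact absurd ha h

omit [Fintype V] in
theorem E_out (hd : Disjoint A B) (q : V → V → ℕ) {w : V} (hw : w ∈ B) (Q : Finset V) :
    E A B q {w} Q = 0 := by
  unfold E
  refine sum_eq_zero fun a ha => sum_eq_zero fun b _ => ?_
  rw [if_neg]
  rintro ⟨h1, _⟩
  rw [mem_singleton] at h1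
  exact disjoint_left.1 hd ha (h1 ▸ hw)

/-- sum over the vertices of `B ∩ X` -/
theorem up_sum (q : V → V → ℕ) (X : Finset V) :
    up A B q X = ∑ w ∈ B ∩ X, E A B q Xᶜ {w} := by
  have h1 : ∀ w ∈ B ∩ X, E A B q Xᶜ {w} = ∑ a ∈ A, if a ∈ Xᶜ then q a w else 0 := by
    intro w hw
    rw [mem_inter] at hw
    unfold E
    refine sum_congr rfl fun a _ => ?_
    rw [sum_eq_single w]
    · simp
    · intro b _ hb
      simp [hb]
    · intro h; exact absurd hw.1 h
  rw [sum_congr rfl h1, sum_comm]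
  unfold up E
  refine sum_congr rfl fun a _ => ?_
  have h2 : B ∩ X = B.filter (fun b => b ∈ X) := by ext; simp
  rw [h2, sum_filter]
  refine sum_congr rfl fun b _ => ?_
  by_cases h3 : a ∈ Xᶜ <;> by_cases h4 : b ∈ X <;> simp [h3, h4]

/-- `X` contains `u`, `v` and has defect one -/
def D1 (p : V → V → ℕ) (A B : Finset V) (u v : V) (X : Finset V) : Prop :=
  ii u X = 1 ∧ ii v X = 1 ∧ 4 + 2 * nn B X = 2 * nn A X + up A B p X + 1

instance (p : V → V → ℕ) (A B : Finset V) (u v : V) (X : Finset V) :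
    Decidable (D1 p A B u v X) := by unfold D1; infer_instance

omit [Fintype V] in
theorem ii_one {x : V} {X : Finset V} (h : ii x X = 1) : x ∈ X := by
  unfold ii at h
  by_contra hx
  rw [if_neg hx] at h
  omega

omit [Fintype V] in
theorem ii_of {x : V} {X : Finset V} (h : x ∈ X) : ii x X = 1 := if_pos h

omit [Fintype V] in
theorem ii_zero {x : V} {X : Finset V} (h : x ∉ X) : ii x X = 0 := if_neg h

namespace Core

theorem beta_le (h : Core p A B x₁ y₁ x₂ y₂ u v) {X : Finset V} (hX : D1 p A B u v X) {w : V}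
    (hw : w ∈ B ∩ X) : E A B p Xᶜ {w} ≤ 2 := by
  obtain ⟨h1, h2, h3⟩ := hX
  rw [mem_inter] at hw
  have huw : u ≠ w := fun e => disjoint_left.1 h.disj h.hu (e ▸ hw.1)
  have hvw : v ≠ w := fun e => disjoint_left.1 h.disj h.hv (e ▸ hw.1)
  have hd := h.defect_le (X.erase w) (ii_of (mem_erase.2 ⟨huw, ii_one h1⟩))
    (ii_of (mem_erase.2 ⟨hvw, ii_one h2⟩))
  have e1 : X = X.erase w ∪ {w} := by
    ext z
    simp only [mem_union, mem_erase, mem_singleton]
    constructor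
    · intro hz
      by_cases hzw : z = w
      · exact Or.inr hzw
      · exact Or.inl ⟨hzw, hz⟩
    · rintro (hz | hz)
      · exact hz.2
      · exact hz ▸ hw.2
  have e2 : (X.erase w)ᶜ = Xᶜ ∪ {w} := by
    ext z
    simp only [mem_union, mem_erase, mem_singleton, mem_compl]
    tauto
  have d1 : Disjoint (X.erase w) {w} := by simp
  have d2 : Disjoint Xᶜ {w} := by simp [hw.2]
  have e3 : up A B p (X.erase w) = E A B p Xᶜ (X.erase w) := by
    unfold up
    rw [e2, E_union_left A B p _ d2, E_out h.disj p hw.1, add_zero]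
  have e4 : up A B p X = E A B p Xᶜ (X.erase w) + E A B p Xᶜ {w} := by
    unfold up
    rw [← E_union_right A B p _ d1, ← e1]
  have e5 : nn B X = nn B (X.erase w) + 1 := by
    unfold nn
    have h4 : B ∩ X = insert w (B ∩ X.erase w) := by
      ext z
      simp only [mem_inter, mem_insert, mem_erase]
      constructor
      · intro hz
        by_cases hzw : z = w
        · exact Or.inl hzw
        · exact Or.inr ⟨hz.1, hzw, hz.2⟩
      · rintro (hz | hz)
        · exact hz ▸ hw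
        · exact ⟨hz.1, hz.2.2⟩
    rw [h4, card_insert_of_notMem (by simp)]
  have e6 : nn A X = nn A (X.erase w) := by
    unfold nn
    congr 1
    ext z
    simp only [mem_inter, mem_erase]
    constructor
    · intro hz
      exact ⟨hz.1, fun e => disjoint_left.1 h.disj hz.1 (e ▸ hw.1), hz.2⟩
    · intro hz
      exact ⟨hz.1, hz.2.2⟩
  omega

/-- a boundary edge at a vertex with exactly one boundary edge -/
theorem exists_edge (h : Core p A B x₁ y₁ x₂ y₂ u v) {X : Finset V} (hX : D1 p A B u v X) :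
    ∃ w₀ ∈ B, ∃ a₀ ∈ A, w₀ ∈ X ∧ a₀ ∉ X ∧ p a₀ w₀ ≠ 0 ∧ E A B p Xᶜ {w₀} = 1 := by
  have hodd : ∃ w ∈ B ∩ X, E A B p Xᶜ {w} % 2 = 1 := by
    by_contra hcon
    push Not at hcon
    have h1 : 2 ∣ up A B p X := by
      rw [up_sum]
      refine dvd_sum fun w hw => ?_
      have := hcon w hw
      omega
    rcases h.defect_eq X hX.1 hX.2.1 hX.2.2 with h2 | h2 <;> omega
  obtain ⟨w, hw, hw1⟩ := hodd
  have h1 := h.beta_le hX hw
  have h2 : E A B p Xᶜ {w} = 1 := by omega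
  obtain ⟨a, ha, b, hb, h3, h4, h5⟩ := E_pos A B p (R := Xᶜ) (Q := {w}) (by omega)
  rw [mem_singleton] at h4
  subst h4
  exact ⟨b, hb, a, ha, (mem_inter.1 hw).2, by simpa using h3, h5, h2⟩

/-- capacities -/
def capf (p : V → V → ℕ) (X : Finset V) (a₀ w₀ : V) : V → V → ℕ := fun a b =>
  p a b + (if a ∈ X ∧ b ∈ X then p a b else 0) + (if a = a₀ ∧ b = w₀ then 1 else 0)

omit [Fintype V] in
theorem _root_.Pool.Agent.TH435.BF.inter_sub {X X' : Finset V} (h : X ⊆ X') : X' ∩ X = X :=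
  inter_eq_right.2 h

theorem _root_.Pool.Agent.TH435.BF.sets {X X' : Finset V} (h : X ⊆ X') :
    Xᶜ = X'ᶜ ∪ (X' \ X) ∧ X' = X ∪ (X' \ X) ∧ (X' \ X)ᶜ = X'ᶜ ∪ X ∧
    Disjoint X'ᶜ (X' \ X) ∧ Disjoint X (X' \ X) ∧ Disjoint X'ᶜ X := by
  refine ⟨?_, ?_, ?_, ?_, ?_, ?_⟩
  · ext z
    have := @h z
    simp only [mem_compl, mem_union, mem_sdiff]
    tauto
  · ext z
    have := @h z
    simp only [mem_union, mem_sdiff]
    tauto
  · ext z
    have := @h z
    simp only [mem_compl, mem_union, mem_sdiff]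
    tauto
  · rw [disjoint_left]
    intro z hz hz'
    rw [mem_compl] at hz
    exact hz (mem_sdiff.1 hz').1
  · rw [disjoint_left]
    intro z hz hz'
    exact (mem_sdiff.1 hz').2 hz
  · rw [disjoint_left]
    intro z hz hz'
    rw [mem_compl] at hz
    exact hz (h hz')

/-- the numbers of `D = X' \ X` -/
theorem cond1 (h : Core p A B x₁ y₁ x₂ y₂ u v) {X' X : Finset V} (hX : D1 p A B u v X')
    (hD : D1 p A B u v X) (hsub : X ⊆ X') (hin : E A B p (X' \ X) X = 0)
    (k7 : 1 ≤ E A B p X'ᶜ (X' \ X)) :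
    E A B p X'ᶜ (X' \ X) = 2 ∧ nn B (X' \ X) = nn A (X' \ X) + 1 ∧ dn A B p (X' \ X) = 0 ∧
      ii x₁ (X' \ X) + ii y₁ (X' \ X) + ii x₂ (X' \ X) + ii y₂ (X' \ X) = 0 := by
  obtain ⟨e1, e2, e3, d1, d2, d3⟩ := sets hsub
  have hDX : X' \ X ⊆ X' := sdiff_subset
  have k1 : up A B p X = E A B p X'ᶜ X + E A B p (X' \ X) X := by
    unfold up
    rw [e1, E_union_left A B p _ d1]
  have k2 : up A B p X' = E A B p X'ᶜ X + E A B p X'ᶜ (X' \ X) := by
    have : up A B p X' = E A B p X'ᶜ (X ∪ (X' \ X)) := by rw [← e2]; rfl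
    rw [this, E_union_right A B p _ d2]
  have k4 : dn A B p (X' \ X) = E A B p (X' \ X) X'ᶜ + E A B p (X' \ X) X := by
    unfold dn
    rw [e3, E_union_right A B p _ d3]
  have k5 : E A B p (X' \ X) X'ᶜ ≤ dn A B p X' := E_mono A B p hDX (Subset.refl _)
  have n1 := nn_sdiff A X' X
  have n2 := nn_sdiff B X' X
  rw [inter_sub hsub] at n1 n2
  have g1 := h.defect_eq X' hX.1 hX.2.1 hX.2.2
  have g2 := h.defect_eq X hD.1 hD.2.1 hD.2.2
  have g3 := hX.2.2
  have g4 := hD.2.2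
  have i1 := ii_mono x₁ hDX
  have i2 := ii_mono y₁ hDX
  have i3 := ii_mono x₂ hDX
  have i4 := ii_mono y₂ hDX
  clear e1 e2 e3 d1 d2 d3 hX hD
  rcases g1 with g1 | g1 <;> rcases g2 with g2 | g2 <;> omega

theorem cond2 (h : Core p A B x₁ y₁ x₂ y₂ u v) {X' X : Finset V} (hX : D1 p A B u v X')
    (hD : D1 p A B u v X) (hsub : X ⊆ X') (hin : E A B p (X' \ X) X = 0)
    (k7 : 1 ≤ E A B p X'ᶜ (X' \ X)) :
    nn B (X' \ X) = 1 ∧ E A B p X'ᶜ (X' \ X) = 2 := by
  obtain ⟨b1, b2, b3, b4⟩ := h.cond1 hX hD hsub hin k7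
  obtain ⟨f1, f2, f3, f4, f5, f6, f7, f8⟩ := h.facts (X' \ X)
  obtain ⟨e1, e2, e3, d1, d2, d3⟩ := sets hsub
  have k3 : up A B p (X' \ X) = E A B p X'ᶜ (X' \ X) + E A B p X (X' \ X) := by
    unfold up
    rw [e3, E_union_left A B p _ d3]
  have c1 := (cr_le x₁ y₁ (X' \ X)).1
  have c2 := (cr_le x₂ y₂ (X' \ X)).1
  have c3 := (cr_le u v (X' \ X)).1
  have i5 : ii u (X' \ X) = 0 := ii_zero (by
    rw [mem_sdiff]; exact fun h' => h'.2 (ii_one hD.1))
  have i6 : ii v (X' \ X) = 0 := ii_zero (by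
    rw [mem_sdiff]; exact fun h' => h'.2 (ii_one hD.2.1))
  have hends := h.ends_le X
  have n1 := nn_sdiff A X' X
  rw [inter_sub hsub] at n1
  have j1 := nn_compl A X'
  have j2 := nn_compl B X'
  have hu := hD.1
  have hv := hD.2.1
  have n2 := nn_sdiff B X' X
  clear e1 e2 e3 d1 d2 d3 hX hD f6 f8
  have hcut : H76FC.cut p (X' \ X) = 3 := by
    clear f7
    omega
  by_contra hcon
  have := f7 (by clear f7; omega) (by clear f7; omega) (by clear f7; omega)
  omega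

theorem cond3 (h : Core p A B x₁ y₁ x₂ y₂ u v) {X' X : Finset V} (hX : D1 p A B u v X')
    (hD : D1 p A B u v X) (hsub : X ⊆ X') (hin : E A B p (X' \ X) X = 0)
    {w₀ a₀ : V} (hw : w₀ ∈ B) (ha : a₀ ∈ A) (hwD : w₀ ∈ X' \ X) (haX : a₀ ∉ X')
    (hp : p a₀ w₀ ≠ 0) (hβ : E A B p X'ᶜ {w₀} = 1) : False := by
  have k7 : 1 ≤ E A B p X'ᶜ (X' \ X) := by
    have := E_single_le A B p ha hw (R := X'ᶜ) (Q := X' \ X) (by rw [mem_compl]; exact haX) hwD
    omega
  obtain ⟨hB1, h2⟩ := h.cond2 hX hD hsub hin k7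
  have hle : E A B p X'ᶜ (X' \ X) ≤ E A B p X'ᶜ {w₀} := by
    unfold E
    refine sum_le_sum fun a _ => sum_le_sum fun b hb => ?_
    by_cases h5 : a ∈ X'ᶜ ∧ b ∈ X' \ X
    · have h6 : b = w₀ := by
        unfold nn at hB1
        rw [card_eq_one] at hB1
        obtain ⟨z, hz⟩ := hB1
        have h7 : b ∈ B ∩ (X' \ X) := mem_inter.2 ⟨hb, h5.2⟩
        have h8 : w₀ ∈ B ∩ (X' \ X) := mem_inter.2 ⟨hw, hwD⟩
        rw [hz, mem_singleton] at h7 h8
        rw [h7, h8]
      rw [if_pos h5, if_pos ⟨h5.1, by rw [h6]; exact mem_singleton_self _⟩]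
    · rw [if_neg h5]; exact Nat.zero_le _
  omega

theorem cond0 (h : Core p A B x₁ y₁ x₂ y₂ u v) {X' : Finset V} (hX : D1 p A B u v X')
    (hmax : ∀ Y, D1 p A B u v Y → Y.card ≤ X'.card) (X : Finset V) (hD : D1 p A B u v X) :
    X ⊆ X' := by
  have m1 := nn_mod A X X'
  have m2 := nn_mod B X X'
  have m3 := up_submod A B p X X'
  have hU : D1 p A B u v (X ∪ X') := by
    have hu1 : ii u (X ∪ X') = 1 := ii_of (mem_union_left _ (ii_one hD.1))
    have hv1 : ii v (X ∪ X') = 1 := ii_of (mem_union_left _ (ii_one hD.2.1))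
    have hu2 : ii u (X ∩ X') = 1 := ii_of (mem_inter.2 ⟨ii_one hD.1, ii_one hX.1⟩)
    have hv2 : ii v (X ∩ X') = 1 := ii_of (mem_inter.2 ⟨ii_one hD.2.1, ii_one hX.2.1⟩)
    have h2 := h.defect_le _ hu1 hv1
    have h3 := h.defect_le _ hu2 hv2
    have h4 := hX.2.2
    have h5 := hD.2.2
    exact ⟨hu1, hv1, by omega⟩
  have h2 := hmax _ hU
  have h3 : X' = X ∪ X' := eq_of_subset_of_card_le subset_union_right h2
  rw [h3]; exact subset_union_left

theorem cond (h : Core p A B x₁ y₁ x₂ y₂ u v) {X' : Finset V} (hX : D1 p A B u v X')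
    (hmax : ∀ Y, D1 p A B u v Y → Y.card ≤ X'.card) {w₀ a₀ : V} (hw : w₀ ∈ B) (ha : a₀ ∈ A)
    (hwX : w₀ ∈ X') (haX : a₀ ∉ X') (hp : p a₀ w₀ ≠ 0) (hβ : E A B p X'ᶜ {w₀} = 1)
    (X : Finset V) (hu : ii u X = 1) (hv : ii v X = 1) :
    4 + 2 * nn B X ≤ 2 * nn A X + up A B (capf p X' a₀ w₀) X := by
  by_contra hcon
  have h1 := h.defect_le X hu hv
  have hP : up A B (capf p X' a₀ w₀) X = up A B p X +
      E A B (fun a b => if a ∈ X' ∧ b ∈ X' then p a b else 0) Xᶜ X +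
      E A B (fun a b => if a = a₀ ∧ b = w₀ then 1 else 0) Xᶜ X := by
    unfold up capf
    rw [E_add, E_add]
  have hD : D1 p A B u v X := ⟨hu, hv, by omega⟩
  have hsub := h.cond0 hX hmax X hD
  have hin : E A B p (X' \ X) X = 0 := by
    have h2 : E A B p (X' \ X) X ≤
        E A B (fun a b => if a ∈ X' ∧ b ∈ X' then p a b else 0) (X' \ X) X := by
      refine E_le A B _ X fun a _ b _ h3 h4 => ?_
      rw [if_pos ⟨(mem_sdiff.1 h3).1, hsub h4⟩]
    have h3 : E A B (fun a b => if a ∈ X' ∧ b ∈ X' then p a b else 0) (X' \ X) X ≤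
        E A B (fun a b => if a ∈ X' ∧ b ∈ X' then p a b else 0) Xᶜ X := by
      refine E_mono A B _ ?_ (Subset.refl _)
      intro z hz
      rw [mem_compl]
      exact (mem_sdiff.1 hz).2
    omega
  have hw2 : w₀ ∉ X := by
    intro hw3
    have h2 := E_single_le A B (fun a b => if a = a₀ ∧ b = w₀ then 1 else 0) ha hw
      (R := Xᶜ) (Q := X) (by rw [mem_compl]; exact fun h' => haX (hsub h')) hw3
    rw [if_pos ⟨rfl, rfl⟩] at h2
    omega
  exact h.cond3 hX hD hsub hin hw ha (mem_sdiff.2 ⟨hwX, hw2⟩) haX hp hβ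

/-- the flow -/
theorem flow (h : Core p A B x₁ y₁ x₂ y₂ u v) : ∃ F : V → V → ℕ,
    (∀ a ∈ A, ∀ b ∈ B, F a b ≤ 2 * p a b) ∧
    (∀ a ∈ A, ∑ b ∈ B, F a b + ((if a = u then 2 else 0) + (if a = v then 2 else 0)) = 2) ∧
    (∀ b ∈ B, ∑ a ∈ A, F a b = 2) ∧
    ((∀ a ∈ A, ∀ b ∈ B, F a b ≤ p a b) ∨
      ∃ X', D1 p A B u v X' ∧ dn A B F X' = 0 ∧ up A B F X' = up A B p X' + 1 ∧
        ∀ X, X' ⊆ X → up A B F X ≤ up A B p X + 1) := by
  have huv : u ≠ v := by
    have h1 := h.nd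
    simp only [List.nodup_cons, List.mem_cons, List.not_mem_nil, or_false, not_or] at h1
    exact h1.2.2.2.2.1
  by_cases hex : ∃ X, D1 p A B u v X
  · obtain ⟨X', hX', hmax⟩ := exists_max_image (univ.filter (D1 p A B u v)) Finset.card
      (by obtain ⟨X, hX⟩ := hex; exact ⟨X, by simpa using hX⟩)
    rw [mem_filter] at hX'
    have hD := hX'.2
    obtain ⟨w₀, hw, a₀, ha, hwX, haX, hp, hβ⟩ := h.exists_edge hD
    obtain ⟨F, hF1, hF2, hF3⟩ := gale' h.disj h.hu h.hv huv h.card (capf p X' a₀ w₀)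
      (h.cond hD (fun Y hY => hmax Y (by simpa using hY)) hw ha hwX haX hp hβ)
    have hup : ∀ X, X' ⊆ X → up A B F X ≤ up A B p X + 1 := by
      intro X hX
      have h1 : up A B F X ≤ up A B (fun a b => p a b + (if a = a₀ ∧ b = w₀ then 1 else 0)) X := by
        refine E_le A B _ _ fun a ha' b hb' h2 h3 => ?_
        have h4 := hF1 a ha' b hb'
        unfold capf at h4
        rw [if_neg] at h4
        · exact h4
        · rintro ⟨h5, _⟩
          rw [mem_compl] at h2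
          exact h2 (hX h5)
      have h2 : up A B (fun a b => p a b + (if a = a₀ ∧ b = w₀ then 1 else 0)) X ≤
          up A B p X + 1 := by
        unfold up
        rw [E_add, E_one ha hw]
        split_ifs <;> omega
      omega
    refine ⟨F, ?_, hF2, hF3, Or.inr ⟨X', hD, ?_⟩⟩
    · intro a ha' b hb'
      have h4 := hF1 a ha' b hb'
      unfold capf at h4
      by_cases h5 : a = a₀ ∧ b = w₀
      · rw [if_pos h5, if_neg] at h4
        · have h6 : p a b ≠ 0 := by rw [h5.1, h5.2]; exact hp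
          omega
        · rintro ⟨h6, _⟩
          rw [h5.1] at h6
          exact haX h6
      · rw [if_neg h5] at h4
        split_ifs at h4 <;> omega
    · have hb := bal hF2 hF3 X'
      rw [wt_add, wt_single A h.hu 2, wt_single A h.hv 2, hD.1, hD.2.1] at hb
      have h1 := hup X' (Subset.refl _)
      have h2 := hD.2.2
      refine ⟨?_, ?_, hup⟩ <;> omega
  · push Not at hex
    obtain ⟨F, hF1, hF2, hF3⟩ := gale' h.disj h.hu h.hv huv h.card p (by
      intro X hu hv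
      have h1 := h.defect_le X hu hv
      by_contra hcon
      exact hex X ⟨hu, hv, by omega⟩)
    refine ⟨F, fun a ha b hb => ?_, hF2, hF3, Or.inl hF1⟩
    have := hF1 a ha b hb
    omega

end Core

end Pool.Agent.TH435.BF
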