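import Pool.Agent.TH435.BF.Basic
import Pool.Agent.H76R2.TX.Defs

/-!
# The numbers attached to a vertex set in a cubic graph with three edges inside the larger side
-/

set_option autoImplicit false

namespace Pool.Agent.TH435.BF

open Finset H840R6

variable {V : Type} [Fintype V] [DecidableEq V]

/-- a cubic multigraph with sides `A`, `B`, no edges inside `B`, exactly three edges inside `A`, which
are pairwise disjoint, and no nontrivial tight cut -/
structure Core (p : V → V → ℕ) (A B : Finset V) (x₁ y₁ x₂ y₂ u v : V) : Prop where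
  rg : H76FC.RGraph 3 p
  disj : Disjoint A B
  all : ∀ x, x ∈ A ∨ x ∈ B
  B0 : ∀ x ∈ B, ∀ y ∈ B, p x y = 0
  card : A.card = B.card + 2
  mono : ∀ x ∈ A, ∀ y ∈ A, p x y = pr x₁ y₁ x y + pr x₂ y₂ x y + pr u v x y
  nd : [x₁, y₁, x₂, y₂, u, v].Nodup
  hx₁ : x₁ ∈ A
  hy₁ : y₁ ∈ A
  hx₂ : x₂ ∈ A
  hy₂ : y₂ ∈ A
  hu : u ∈ A
  hv : v ∈ A
  nt : H76TX.NoTight 3 p

variable {p : V → V → ℕ} {A B : Finset V} {x₁ y₁ x₂ y₂ u v : V}

omit [Fintype V] in
theorem pr_symm (x y a b : V) : pr x y a b = pr x y b a := by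
  unfold pr
  have h1 : (a = x ∧ b = y) ↔ (b = y ∧ a = x) := And.comm
  have h2 : (a = y ∧ b = x) ↔ (b = x ∧ a = y) := And.comm
  rw [if_congr h1 rfl rfl, if_congr h2 rfl rfl]
  omega

omit [Fintype V] in
theorem sum_pr {x y : V} (hx : x ∈ A) (hy : y ∈ A) (a : V) :
    ∑ b ∈ A, pr x y a b = (if a = x then 1 else 0) + (if a = y then 1 else 0) := by
  unfold pr
  rw [sum_add_distrib]
  congr 1
  · by_cases h : a = x
    · simp [h, hy]
    · simp [h]
  · by_cases h : a = y
    · simp [h, hx]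
    · simp [h]

/-- the number of mono edges at a vertex -/
def md (x₁ y₁ x₂ y₂ u v : V) (a : V) : ℕ :=
  (if a = x₁ then 1 else 0) + (if a = y₁ then 1 else 0) + (if a = x₂ then 1 else 0) +
    (if a = y₂ then 1 else 0) + (if a = u then 1 else 0) + (if a = v then 1 else 0)

omit [Fintype V] in
theorem md_le (nd : [x₁, y₁, x₂, y₂, u, v].Nodup) (a : V) : md x₁ y₁ x₂ y₂ u v a ≤ 1 := by
  simp only [List.nodup_cons, List.mem_cons, List.not_mem_nil, or_false, not_or] at nd
  obtain ⟨⟨n1, n2, n3, n4, n5⟩, ⟨n6, n7, n8, n9⟩, ⟨n10, n11, n12⟩, ⟨n13, n14⟩, n15, _⟩ := nd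
  unfold md
  by_cases h1 : a = x₁
  · subst h1
    simp [n1, n2, n3, n4, n5]
  · by_cases h2 : a = y₁
    · subst h2
      simp [h1, n6, n7, n8, n9]
    · by_cases h3 : a = x₂
      · subst h3
        simp [h1, h2, n10, n11, n12]
      · by_cases h4 : a = y₂
        · subst h4
          simp [h1, h2, h3, n13, n14]
        · by_cases h5 : a = u
          · subst h5
            simp [h1, h2, h3, h4, n15]
          · simp only [h1, h2, h3, h4, h5, if_false]
            split_ifs <;> omega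

namespace Core

theorem degA (h : Core p A B x₁ y₁ x₂ y₂ u v) (a : V) (ha : a ∈ A) :
    ∑ b ∈ B, p a b + md x₁ y₁ x₂ y₂ u v a = 3 := by
  have hU : (univ : Finset V) = A ∪ B := by
    ext x
    simpa using h.all x
  have h1 := h.rg.reg a
  rw [hU, sum_union h.disj, sum_congr rfl (fun b hb => h.mono a ha b hb), sum_add_distrib,
    sum_add_distrib, sum_pr h.hx₁ h.hy₁, sum_pr h.hx₂ h.hy₂, sum_pr h.hu h.hv] at h1
  unfold md
  omega

theorem degB (h : Core p A B x₁ y₁ x₂ y₂ u v) (b : V) (hb : b ∈ B) :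
    ∑ a ∈ A, p a b = 3 := by
  have hU : (univ : Finset V) = A ∪ B := by
    ext x
    simpa using h.all x
  have h1 := h.rg.reg b
  rw [hU, sum_union h.disj, sum_eq_zero (s := B) (fun x hx => h.B0 b hb x hx), add_zero] at h1
  rw [← h1]
  exact sum_congr rfl fun a _ => h.rg.symm a b

/-- sum of the indicators of the six ends -/
theorem wt_md (h : Core p A B x₁ y₁ x₂ y₂ u v) (X : Finset V) :
    wt A (md x₁ y₁ x₂ y₂ u v) X =
      ii x₁ X + ii y₁ X + ii x₂ X + ii y₂ X + ii u X + ii v X := by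
  unfold md
  rw [wt_add, wt_add, wt_add, wt_add, wt_add, wt_single A h.hx₁ 1, wt_single A h.hy₁ 1,
    wt_single A h.hx₂ 1, wt_single A h.hy₂ 1, wt_single A h.hu 1, wt_single A h.hv 1]
  omega

theorem ends_le (h : Core p A B x₁ y₁ x₂ y₂ u v) (X : Finset V) :
    ii x₁ X + ii y₁ X + ii x₂ X + ii y₂ X + ii u X + ii v X ≤ nn A X := by
  rw [← h.wt_md X]
  unfold wt nn
  rw [card_eq_sum_ones, ← sum_filter]
  have e0 : A.filter (fun a => a ∈ X) = A ∩ X := by ext; simp
  rw [e0]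
  exact sum_le_sum fun a _ => md_le h.nd a

theorem balp (h : Core p A B x₁ y₁ x₂ y₂ u v) (X : Finset V) :
    up A B p X + 3 * nn A X = dn A B p X +
      (ii x₁ X + ii y₁ X + ii x₂ X + ii y₂ X + ii u X + ii v X) + 3 * nn B X := by
  rw [← h.wt_md X]
  exact bal h.degA h.degB X

theorem cutp (h : Core p A B x₁ y₁ x₂ y₂ u v) (X : Finset V) :
    H76FC.cut p X = up A B p X + dn A B p X + (cr x₁ y₁ X + cr x₂ y₂ X + cr u v X) := by
  rw [cut_eq h.disj h.all h.rg.symm h.B0 X, E_congr A A X Xᶜ (fun a ha b hb => h.mono a ha b hb),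
    E_add, E_add, E_pr A h.hx₁ h.hy₁, E_pr A h.hx₂ h.hy₂, E_pr A h.hu h.hv]

theorem card_eq (h : Core p A B x₁ y₁ x₂ y₂ u v) (X : Finset V) :
    X.card = nn A X + nn B X := by
  unfold nn
  rw [← card_union_of_disjoint]
  · congr 1
    ext z
    have := h.all z
    simp only [mem_union, mem_inter]
    tauto
  · rw [disjoint_left]
    intro z h1 h2
    simp only [mem_inter] at h1 h2
    exact disjoint_left.1 h.disj h1.1 h2.1

theorem six_le (h : Core p A B x₁ y₁ x₂ y₂ u v) : 6 ≤ A.card := by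
  have h1 := h.ends_le univ
  have h2 := nn_compl A (univ : Finset V)
  have h3 : ∀ x : V, ii x univ = 1 := fun x => by simp [ii]
  rw [h3, h3, h3, h3, h3, h3] at h1
  omega

/-- odd cuts -/
theorem oddp (h : Core p A B x₁ y₁ x₂ y₂ u v) (X : Finset V) (ho : (nn A X + nn B X) % 2 = 1) :
    3 ≤ H76FC.cut p X :=
  h.rg.odd X (by rw [h.card_eq]; exact Nat.odd_iff.2 ho)

theorem parityp (h : Core p A B x₁ y₁ x₂ y₂ u v) (X : Finset V) :
    (H76FC.cut p X + (nn A X + nn B X)) % 2 = 0 := by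
  have h1 := H76FC.parity V p (fun _ => 3) X h.rg.loopless h.rg.symm h.rg.reg
  rw [sum_const, smul_eq_mul, h.card_eq] at h1
  have h2 := Nat.even_iff.1 h1
  omega

theorem oddp5 (h : Core p A B x₁ y₁ x₂ y₂ u v) (X : Finset V) (ho : (nn A X + nn B X) % 2 = 1)
    (h2 : 2 ≤ nn A X + nn B X) (h3 : nn A X + nn B X + 2 ≤ A.card + B.card) :
    5 ≤ H76FC.cut p X := by
  have h4 := h.oddp X ho
  have h5 := h.parityp X
  by_contra hcon
  have h6 : H76FC.cut p X = 3 := by omega
  have h7 := nn_compl A X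
  have h8 := nn_compl B X
  have h9 := h.card_eq X
  have h10 := h.card_eq Xᶜ
  rcases h.nt X (by rw [h.card_eq]; exact Nat.odd_iff.2 ho) h6 with h11 | h11 <;> omega

/-- the cut of `X ∪ {y}` -/
theorem cut_insert (h : Core p A B x₁ y₁ x₂ y₂ u v) (X : Finset V) (y : V) (hy : y ∉ X) :
    H76FC.cut p (insert y X) + 2 * ∑ x ∈ X, p x y = H76FC.cut p X + 3 := by
  unfold H76FC.cut
  rw [sum_insert hy]
  have e1 : Xᶜ = insert y (insert y X)ᶜ := by
    ext z
    simp only [mem_compl, mem_insert]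
    constructor
    · intro hz
      by_cases hzy : z = y
      · exact Or.inl hzy
      · exact Or.inr (by simp [hzy, hz])
    · rintro (rfl | hz)
      · exact hy
      · exact fun h' => hz (Or.inr h')
  have e2 : y ∉ (insert y X)ᶜ := by simp
  have e3 : ∀ x, ∑ v ∈ Xᶜ, p x v = p x y + ∑ v ∈ (insert y X)ᶜ, p x v := by
    intro x
    rw [e1, sum_insert e2]
  have e4 : ∑ x ∈ X, ∑ v ∈ Xᶜ, p x v = ∑ x ∈ X, p x y + ∑ x ∈ X, ∑ v ∈ (insert y X)ᶜ, p x v := by
    rw [← sum_add_distrib]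
    exact sum_congr rfl fun x _ => e3 x
  have e5 : ∑ v ∈ (insert y X)ᶜ, p y v + ∑ x ∈ X, p x y = 3 := by
    have h1 := h.rg.reg y
    rw [← sum_add_sum_compl (insert y X), sum_insert hy, h.rg.loopless y, zero_add] at h1
    have e6 : ∑ x ∈ X, p x y = ∑ x ∈ X, p y x := sum_congr rfl (fun x _ => h.rg.symm x y)
    rw [e6, add_comm]
    exact h1
  rw [e4]
  omega

theorem even_aux (h : Core p A B x₁ y₁ x₂ y₂ u v) (X : Finset V) (he : (nn A X + nn B X) % 2 = 0)
    (h1 : 1 ≤ nn A X + nn B X) (h2 : nn A X + nn B X + 4 ≤ A.card + B.card) :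
    4 ≤ H76FC.cut p X := by
  by_contra hcon
  have h5 := h.parityp X
  have hX := h.card_eq X
  have hXc := h.card_eq Xᶜ
  have h7 := nn_compl A X
  have h8 := nn_compl B X
  obtain ⟨y, hy, hle⟩ : ∃ y, y ∉ X ∧ H76FC.cut p (insert y X) ≤ 3 := by
    by_cases h0 : H76FC.cut p X = 0
    · obtain ⟨y, hy⟩ : Xᶜ.Nonempty := by rw [← card_pos]; omega
      rw [mem_compl] at hy
      refine ⟨y, hy, ?_⟩
      have := h.cut_insert X y hy
      omega
    · have h3 : ∑ x ∈ X, ∑ y ∈ Xᶜ, p x y ≠ 0 := h0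
      rw [sum_comm] at h3
      obtain ⟨y, hy, h4⟩ := exists_ne_zero_of_sum_ne_zero h3
      rw [mem_compl] at hy
      refine ⟨y, hy, ?_⟩
      have := h.cut_insert X y hy
      omega
  have h9 := h.card_eq (insert y X)
  rw [card_insert_of_notMem hy] at h9
  have h10 := h.oddp5 (insert y X) (by omega) (by omega) (by omega)
  omega

theorem evenp (h : Core p A B x₁ y₁ x₂ y₂ u v) (X : Finset V) (he : (nn A X + nn B X) % 2 = 0)
    (h1 : 1 ≤ nn A X + nn B X) (h2 : nn A X + nn B X + 1 ≤ A.card + B.card) :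
    4 ≤ H76FC.cut p X := by
  have h6 := h.six_le
  have h7 := nn_compl A X
  have h8 := nn_compl B X
  have hc := h.card
  by_cases h3 : nn A X + nn B X + 4 ≤ A.card + B.card
  · exact h.even_aux X he h1 h3
  · have h9 := h.even_aux Xᶜ (by omega) (by omega) (by omega)
    rwa [H76FC.cutCompl V p X h.rg.symm] at h9

end Core

end Pool.Agent.TH435.BF
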