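import Pool.Agent.TH435.BF.Core

/-!
# The flow with at most one doubled edge on the boundary of a maximal set of defect one
-/

set_option autoImplicit false

namespace Pool.Agent.TH435.BF

open Finset H840R6

variable {V : Type} [Fintype V] [DecidableEq V]

variable {p : V → V → ℕ} {A B : Finset V} {x₁ y₁ x₂ y₂ u v : V}

namespace Core

/-- the facts about one vertex set, in a form for `omega` -/
theorem facts (h : Core p A B x₁ y₁ x₂ y₂ u v) (X : Finset V) :
    up A B p X + 3 * nn A X = dn A B p X +
      (ii x₁ X + ii y₁ X + ii x₂ X + ii y₂ X + ii u X + ii v X) + 3 * nn B X ∧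
    H76FC.cut p X = up A B p X + dn A B p X + (cr x₁ y₁ X + cr x₂ y₂ X + cr u v X) ∧
    ii x₁ X + ii y₁ X + ii x₂ X + ii y₂ X + ii u X + ii v X ≤ nn A X ∧
    nn A X + (6 - (ii x₁ X + ii y₁ X + ii x₂ X + ii y₂ X + ii u X + ii v X)) ≤ A.card ∧
    nn B X ≤ B.card ∧
    ((nn A X + nn B X) % 2 = 1 → 3 ≤ H76FC.cut p X) ∧
    ((nn A X + nn B X) % 2 = 1 → 2 ≤ nn A X + nn B X → nn A X + nn B X + 2 ≤ A.card + B.card →
      5 ≤ H76FC.cut p X) ∧
    ((nn A X + nn B X) % 2 = 0 → 1 ≤ nn A X + nn B X → nn A X + nn B X + 1 ≤ A.card + B.card →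
      4 ≤ H76FC.cut p X) := by
  refine ⟨h.balp X, h.cutp X, h.ends_le X, ?_, ?_, h.oddp X, h.oddp5 X, h.evenp X⟩
  · have h1 := h.ends_le Xᶜ
    have h2 := nn_compl A X
    have e1 := ii_compl x₁ X
    have e2 := ii_compl y₁ X
    have e3 := ii_compl x₂ X
    have e4 := ii_compl y₂ X
    have e5 := ii_compl u X
    have e6 := ii_compl v X
    omega
  · have h2 := nn_compl B X
    omega

omit [Fintype V] in
theorem _root_.Pool.Agent.TH435.BF.cr_le (x y : V) (X : Finset V) :
    cr x y X ≤ ii x X + ii y X ∧ cr x y X + ii x X + ii y X ≤ 2 := by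
  rcases cr_cases x y X with h | h | h | h <;> omega

/-- C1: the defect is at most one -/
theorem defect_le (h : Core p A B x₁ y₁ x₂ y₂ u v) (X : Finset V) (hu : ii u X = 1)
    (hv : ii v X = 1) : 4 + 2 * nn B X ≤ 2 * nn A X + up A B p X + 1 := by
  obtain ⟨f1, f2, f3, f4, f5, f6, f7, f8⟩ := h.facts X
  have c1 := (cr_le x₁ y₁ X).1
  have c2 := (cr_le x₂ y₂ X).1
  have c3 := (cr_le u v X).2
  have hc := h.card
  by_contra hcon
  by_cases ho : (nn A X + nn B X) % 2 = 1
  · have h9 := f6 ho
    clear f6 f7 f8
    omega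
  · have h9 := f8 (by clear f6 f7 f8; omega) (by clear f6 f7 f8; omega) (by clear f6 f7 f8; omega)
    clear f6 f7 f8
    omega

/-- C2: the sets of defect one -/
theorem defect_eq (h : Core p A B x₁ y₁ x₂ y₂ u v) (X : Finset V) (hu : ii u X = 1)
    (hv : ii v X = 1) (hd : 4 + 2 * nn B X = 2 * nn A X + up A B p X + 1) :
    (up A B p X = 5 ∧ nn B X = nn A X + 1 ∧ dn A B p X = 0 ∧
      ii x₁ X + ii y₁ X + ii x₂ X + ii y₂ X = 0) ∨
    (up A B p X = 3 ∧ nn B X = nn A X ∧
      dn A B p X + (ii x₁ X + ii y₁ X + ii x₂ X + ii y₂ X) = 1) := by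
  obtain ⟨f1, f2, f3, f4, f5, f6, f7, f8⟩ := h.facts X
  have c1 := (cr_le x₁ y₁ X).1
  have c2 := (cr_le x₂ y₂ X).1
  have c3 := (cr_le u v X).2
  have hc := h.card
  clear f6 f8
  by_cases hs : dn A B p X + (ii x₁ X + ii y₁ X + ii x₂ X + ii y₂ X) ≤ 1
  · clear f7 f2 c1 c2 c3
    omega
  · exfalso
    have h9 := f7 (by clear f7; omega) (by clear f7; omega) (by clear f7; omega)
    clear f7
    omega

end Core

/-- `(P, Y)`: the capacity function -/
theorem gale' {A B : Finset V} (hd : Disjoint A B) {u v : V} (hu : u ∈ A) (hv : v ∈ A)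
    (huv : u ≠ v) (hc : A.card = B.card + 2) (P : V → V → ℕ)
    (hP : ∀ X : Finset V, ii u X = 1 → ii v X = 1 → 4 + 2 * nn B X ≤ 2 * nn A X + up A B P X) :
    ∃ F : V → V → ℕ, (∀ a ∈ A, ∀ b ∈ B, F a b ≤ P a b) ∧
      (∀ a ∈ A, ∑ b ∈ B, F a b + ((if a = u then 2 else 0) + (if a = v then 2 else 0)) = 2) ∧
      (∀ b ∈ B, ∑ a ∈ A, F a b = 2) := by
  set f : V → ℕ := fun a => if a = u then 0 else if a = v then 0 else 2 with hf
  have hfs : ∑ a ∈ A, f a = 2 * B.card := by
    have h1 : ∑ a ∈ A, f a + ∑ a ∈ A, ((if a = u then 2 else 0) + (if a = v then 2 else 0)) =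
        2 * A.card := by
      rw [← sum_add_distrib, mul_comm, ← smul_eq_mul, ← sum_const]
      refine sum_congr rfl fun a _ => ?_
      simp only [hf]
      by_cases h1 : a = u
      · subst h1
        simp [huv]
      · by_cases h2 : a = v <;> simp [h1, h2]
        intro h3
        exact absurd h3.symm huv
    rw [sum_add_distrib, sum_ite_eq' A u, sum_ite_eq' A v, if_pos hu, if_pos hv] at h1
    omega
  obtain ⟨F, hF1, hF2, hF3⟩ := gale A B (2 * B.card) P f (fun _ => 2) hfs
    (by rw [sum_const, smul_eq_mul, mul_comm]) (by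
      intro S W
      set X : Finset V := ((A \ S) ∪ (B \ W)) ∪ {u, v} with hX
      have hXu : ii u X = 1 := by simp [ii, hX]
      have hXv : ii v X = 1 := by simp [ii, hX]
      have hBA : ∀ z ∈ B, z ∉ A := fun z hz hzA => disjoint_left.1 hd hzA hz
      have huB : u ∉ B := fun h' => hBA u h' hu
      have hvB : v ∉ B := fun h' => hBA v h' hv
      have h1 := hP X hXu hXv
      have e1 : wt A f S + 2 * nn A X = 2 * A.card := by
        have h2 : wt A f S = 2 * nn A Xᶜ := by
          unfold wt nn
          rw [mul_comm, ← smul_eq_mul, ← sum_const]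
          have h3 : A ∩ Xᶜ = A.filter (fun a => a ∈ S ∧ a ≠ u ∧ a ≠ v) := by
            ext z
            simp only [hX, mem_inter, mem_compl, mem_union, mem_sdiff, mem_insert, mem_singleton,
              mem_filter]
            constructor
            · rintro ⟨h4, h5⟩
              push Not at h5
              refine ⟨h4, ?_, h5.2.1, h5.2.2⟩
              exact h5.1.1 h4
            · rintro ⟨h4, h5, h6, h7⟩
              refine ⟨h4, ?_⟩
              rintro ((h8 | h8) | (h8 | h8))
              · exact h8.2 h5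
              · exact hBA z h8.1 h4
              · exact h6 h8
              · exact h7 h8
          rw [h3, sum_filter]
          refine sum_congr rfl fun a _ => ?_
          simp only [hf]
          by_cases h4 : a ∈ S <;> by_cases h5 : a = u <;> by_cases h6 : a = v <;>
            simp [h4, h5, h6]
        have h3 := nn_compl A X
        omega
      have e2 : wt B (fun _ => 2) W + 2 * nn B X = 2 * B.card := by
        have h2 : wt B (fun _ => 2) W = 2 * nn B Xᶜ := by
          unfold wt nn
          rw [mul_comm, ← smul_eq_mul, ← sum_const]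
          have h3 : B ∩ Xᶜ = B.filter (fun b => b ∈ W) := by
            ext z
            simp only [hX, mem_inter, mem_compl, mem_union, mem_sdiff, mem_insert, mem_singleton,
              mem_filter]
            constructor
            · rintro ⟨h4, h5⟩
              push Not at h5
              exact ⟨h4, h5.1.2 h4⟩
            · rintro ⟨h4, h5⟩
              refine ⟨h4, ?_⟩
              rintro ((h8 | h8) | (h8 | h8))
              · exact hBA z h4 h8.1
              · exact h8.2 h5
              · exact huB (h8 ▸ h4)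
              · exact hvB (h8 ▸ h4)
          rw [h3, sum_filter]
        have h3 := nn_compl B X
        omega
      have e3 : up A B P X ≤ cap A B P S W := by
        unfold up E cap
        refine sum_le_sum fun a ha => sum_le_sum fun b hb => ?_
        by_cases h2 : a ∈ Xᶜ ∧ b ∈ X
        · have h3 : a ∈ S ∧ b ∉ W := by
            obtain ⟨h4, h5⟩ := h2
            simp only [hX, mem_compl, mem_union, mem_sdiff, mem_insert, mem_singleton, not_or] at h4 h5
            constructor
            · by_contra h6
              exact h4.1.1 ⟨ha, h6⟩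
            · rcases h5 with (h6 | h6) | (h6 | h6)
              · exact absurd h6.1 (hBA b hb)
              · exact h6.2
              · exact absurd (h6 ▸ hb) huB
              · exact absurd (h6 ▸ hb) hvB
          rw [if_pos h2, if_pos h3]
        · rw [if_neg h2]; exact Nat.zero_le _
      omega)
  refine ⟨F, hF1, ?_, hF3⟩
  intro a ha
  rw [hF2 a ha]
  simp only [hf]
  by_cases h1 : a = u
  · subst h1
    simp [huv]
  · by_cases h2 : a = v
    · subst h2
      simp [h1]
    · simp [h1, h2]

end Pool.Agent.TH435.BF
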