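import Pool.Agent.TH435.BF.Unc
import Pool.Agent.H840R6.Inter
import Pool.Agent.H76R2.TW.Restr
import Pool.Agent.H76R2.TW.Main

/-!
# The cover in the case without tight cuts
-/

set_option autoImplicit false

namespace Pool.Agent.TH435.BF

open Finset H840R6

variable {V : Type} [Fintype V] [DecidableEq V]

variable {p : V → V → ℕ} {A B : Finset V} {x₁ y₁ x₂ y₂ u v : V}

/-- edges `G` between the sides and `M` inside `A` -/
def mkq (A B : Finset V) (G M : V → V → ℕ) : V → V → ℕ := fun x y => H840R6.ext A B G x y + M x y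

omit [Fintype V] in
theorem ext_AB (hd : Disjoint A B) (G : V → V → ℕ) {a b : V} (ha : a ∈ A) (hb : b ∈ B) :
    H840R6.ext A B G a b = G a b := by
  unfold H840R6.ext
  rw [if_pos ⟨ha, hb⟩]

omit [Fintype V] in
theorem ext_BA (hd : Disjoint A B) (G : V → V → ℕ) {a b : V} (ha : a ∈ A) (hb : b ∈ B) :
    H840R6.ext A B G b a = G a b := by
  unfold H840R6.ext
  rw [if_neg (fun h => disjoint_left.1 hd h.1 hb), if_pos ⟨hb, ha⟩]

omit [Fintype V] in
theorem ext_AA (hd : Disjoint A B) (G : V → V → ℕ) {a b : V} (ha : a ∈ A) (hb : b ∈ A) :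
    H840R6.ext A B G a b = 0 := by
  unfold H840R6.ext
  rw [if_neg (fun h => disjoint_left.1 hd hb h.2), if_neg (fun h => disjoint_left.1 hd ha h.1)]

omit [Fintype V] in
theorem ext_BB (hd : Disjoint A B) (G : V → V → ℕ) {a b : V} (ha : a ∈ B) (hb : b ∈ B) :
    H840R6.ext A B G a b = 0 := by
  unfold H840R6.ext
  rw [if_neg (fun h => disjoint_left.1 hd h.1 ha), if_neg (fun h => disjoint_left.1 hd h.2 hb)]

theorem mk_rg (hd : Disjoint A B) (hall : ∀ x, x ∈ A ∨ x ∈ B) {k : ℕ} {G M : V → V → ℕ}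
    (hMs : ∀ x y, M x y = M y x) (hM0 : ∀ x, M x x = 0) (hMA : ∀ x y, M x y ≠ 0 → x ∈ A)
    (hA : ∀ a ∈ A, ∑ b ∈ B, G a b + ∑ a' ∈ A, M a a' = k) (hB : ∀ b ∈ B, ∑ a ∈ A, G a b = k)
    (hodd : ∀ X : Finset V, (nn A X + nn B X) % 2 = 1 →
      k ≤ up A B G X + dn A B G X + E A A M X Xᶜ) :
    H76TW.RG k (mkq A B G M) univ := by
  have hU : (univ : Finset V) = A ∪ B := by
    ext x
    simpa using hall x
  have hMB : ∀ x ∈ B, ∀ y, M x y = 0 := by
    intro x hx y
    by_contra hne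
    exact disjoint_left.1 hd (hMA x y hne) hx
  have hMB' : ∀ x, ∀ y ∈ B, M x y = 0 := fun x y hy => by rw [hMs]; exact hMB y hy x
  have hsymm : ∀ x y, mkq A B G M x y = mkq A B G M y x := by
    intro x y
    unfold mkq
    rw [hMs x y]
    congr 1
    rcases hall x with hx | hx <;> rcases hall y with hy | hy
    · rw [ext_AA hd G hx hy, ext_AA hd G hy hx]
    · rw [ext_AB hd G hx hy, ext_BA hd G hx hy]
    · rw [ext_BA hd G hy hx, ext_AB hd G hy hx]
    · rw [ext_BB hd G hx hy, ext_BB hd G hy hx]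
  refine ⟨?_, hsymm, fun x _ _ => mem_univ x, ?_, ?_⟩
  · intro x
    unfold mkq
    rw [hM0]
    rcases hall x with hx | hx
    · rw [ext_AA hd G hx hx]
    · rw [ext_BB hd G hx hx]
  · intro x _
    rw [hU, sum_union hd]
    rcases hall x with hx | hx
    · rw [← hA x hx, add_comm]
      congr 1
      · refine sum_congr rfl fun b hb => ?_
        unfold mkq
        rw [ext_AB hd G hx hb, hMB' x b hb, add_zero]
      · refine sum_congr rfl fun a ha => ?_
        unfold mkq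
        rw [ext_AA hd G hx ha, zero_add]
    · rw [← hB x hx]
      have e1 : ∑ y ∈ B, mkq A B G M x y = 0 := by
        refine sum_eq_zero fun b hb => ?_
        unfold mkq
        rw [ext_BB hd G hx hb, hMB x hx b, add_zero]
      rw [e1, add_zero]
      refine sum_congr rfl fun a ha => ?_
      unfold mkq
      rw [ext_BA hd G ha hx, hMB x hx a, add_zero]
  · intro X _ hX
    have hBB : ∀ x ∈ B, ∀ y ∈ B, mkq A B G M x y = 0 := by
      intro x hx y hy
      unfold mkq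
      rw [ext_BB hd G hx hy, hMB x hx y]
    have hcard : X.card = nn A X + nn B X := by
      unfold nn
      rw [← card_union_of_disjoint]
      · congr 1
        ext z
        have := hall z
        simp only [mem_union, mem_inter]
        tauto
      · rw [disjoint_left]
        intro z h1 h2
        simp only [mem_inter] at h1 h2
        exact disjoint_left.1 hd h1.1 h2.1
    have h1 : ∀ R Q : Finset V, E A B (mkq A B G M) R Q = E A B G R Q := fun R Q =>
      E_congr A B R Q fun a ha b hb => by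
        unfold mkq
        rw [ext_AB hd G ha hb, hMB' a b hb, add_zero]
    have h2 : E A A (mkq A B G M) X Xᶜ = E A A M X Xᶜ := E_congr A A X Xᶜ fun a ha b hb => by
      unfold mkq
      rw [ext_AA hd G ha hb, zero_add]
    rw [cut_eq hd hall hsymm hBB, h2]
    unfold up dn
    rw [h1, h1]
    exact hodd X (by rw [← hcard]; exact Nat.odd_iff.1 hX)

omit [Fintype V] in
theorem pr_self {x y : V} (h : x ≠ y) (a : V) : pr x y a a = 0 := by
  unfold pr
  rw [if_neg, if_neg]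
  · rintro ⟨h1, h2⟩; exact h (h2.symm.trans h1)
  · rintro ⟨h1, h2⟩; exact h (h1.symm.trans h2)

omit [Fintype V] in
theorem pr_ne {x y a b : V} (h : pr x y a b ≠ 0) : (a = x ∧ b = y) ∨ (a = y ∧ b = x) := by
  unfold pr at h
  by_contra hcon
  push Not at hcon
  rw [if_neg (fun h' => hcon.1 h'.1 h'.2), if_neg (fun h' => hcon.2 h'.1 h'.2)] at h
  exact h rfl

omit [Fintype V] in
theorem E_two (A B : Finset V) (q : V → V → ℕ) (R Q : Finset V) :
    E A B (fun a b => 2 * q a b) R Q = 2 * E A B q R Q := by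
  unfold E
  rw [mul_sum]
  refine sum_congr rfl fun a _ => ?_
  rw [mul_sum]
  refine sum_congr rfl fun b _ => ?_
  split_ifs <;> rfl

namespace Core

theorem nodup (h : Core p A B x₁ y₁ x₂ y₂ u v) :
    x₁ ≠ y₁ ∧ x₂ ≠ y₂ ∧ u ≠ v ∧ x₁ ≠ x₂ ∧ x₁ ≠ y₂ := by
  have h1 := h.nd
  simp only [List.nodup_cons, List.mem_cons, List.not_mem_nil, or_false, not_or] at h1
  exact ⟨h1.1.1, h1.2.2.1.1, h1.2.2.2.2.1, h1.1.2.1, h1.1.2.2.1⟩

theorem rgY (h : Core p A B x₁ y₁ x₂ y₂ u v) {F : V → V → ℕ} (hF : Fl p A B u v F) :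
    H76TW.RG 2 (mkq A B F (fun x y => 2 * pr u v x y)) univ := by
  obtain ⟨n1, n2, n3, n4, n5⟩ := h.nodup
  refine mk_rg h.disj h.all (fun x y => by rw [pr_symm]) (fun x => by rw [pr_self n3])
    (fun x y hxy => ?_) (fun a ha => ?_) hF.col (fun X hX => ?_)
  · rcases pr_ne (fun h' => hxy (by rw [h'])) with h1 | h1
    · rw [h1.1]; exact h.hu
    · rw [h1.1]; exact h.hv
  · rw [← mul_sum, sum_pr h.hu h.hv]
    have h1 := hF.row a ha
    have h4 : (if a = u then 2 else 0) = 2 * (if a = u then 1 else 0) := by split_ifs <;> rfl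
    have h5 : (if a = v then 2 else 0) = 2 * (if a = v then 1 else 0) := by split_ifs <;> rfl
    rw [h4, h5] at h1
    omega
  · have h2 := bal hF.row hF.col X
    rw [wt_add, wt_single A h.hu 2, wt_single A h.hv 2] at h2
    rw [E_two, E_pr A h.hu h.hv]
    rcases cr_cases u v X with c | c | c | c <;> omega

theorem colY (h : Core p A B x₁ y₁ x₂ y₂ u v) {F : V → V → ℕ} (hF : Fl p A B u v F) :
    H76TW.Col 2 (mkq A B F (fun x y => 2 * pr u v x y)) := by
  refine col_of_sides (h.rgY hF) (fun x => decide (x ∈ A)) ?_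
  have key : ∀ x y, mkq A B F (fun x y => 2 * pr u v x y) x y ≠ 0 →
      decide (x ∈ A) = decide (y ∈ A) → (x = u ∧ y = v) ∨ (x = v ∧ y = u) := by
    intro x y hxy hc
    rw [decide_eq_decide] at hc
    refine pr_ne fun h' => hxy ?_
    unfold mkq
    beta_reduce
    rw [h']
    rcases h.all x with hx | hx
    · rw [ext_AA h.disj F hx (hc.1 hx)]
    · rcases h.all y with hy | hy
      · exact absurd hx (disjoint_left.1 h.disj (hc.2 hy))
      · rw [ext_BB h.disj F hx hy]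
  intro x y z w h1 h2 h3 h4 _
  rcases key x y h1 h3 with ⟨k1, k2⟩ | ⟨k1, k2⟩ <;> rcases key z w h2 h4 with ⟨k3, k4⟩ | ⟨k3, k4⟩
  · exact Or.inl (Or.inl (k1.trans k3.symm))
  · exact Or.inl (Or.inr (k1.trans k4.symm))
  · exact Or.inl (Or.inr (k1.trans k4.symm))
  · exact Or.inl (Or.inl (k1.trans k3.symm))

theorem rgZ (h : Core p A B x₁ y₁ x₂ y₂ u v) {F : V → V → ℕ} (hF : Fl p A B u v F)
    (hnv : ∀ X, ¬ Viol p A B x₁ y₁ x₂ y₂ F X) :
    H76TW.RG 4 (mkq A B (rst p F) (fun x y => 2 * pr x₁ y₁ x y + 2 * pr x₂ y₂ x y)) univ := by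
  obtain ⟨n1, n2, n3, n4, n5⟩ := h.nodup
  refine mk_rg h.disj h.all (fun x y => by rw [pr_symm x₁, pr_symm x₂])
    (fun x => by rw [pr_self n1, pr_self n2])
    (fun x y hxy => ?_) (fun a ha => ?_) (fun b hb => ?_) (fun X hX => ?_)
  · by_cases h0 : pr x₁ y₁ x y = 0
    · have h0' : pr x₂ y₂ x y ≠ 0 := fun h' => hxy (by rw [h0, h'])
      rcases pr_ne h0' with h1 | h1
      · rw [h1.1]; exact h.hx₂
      · rw [h1.1]; exact h.hy₂
    · rcases pr_ne h0 with h1 | h1
      · rw [h1.1]; exact h.hx₁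
      · rw [h1.1]; exact h.hy₁
  · rw [sum_add_distrib, ← mul_sum, ← mul_sum, sum_pr h.hx₁ h.hy₁, sum_pr h.hx₂ h.hy₂]
    have h1 := hF.row a ha
    have h2 := h.degA a ha
    have h3 : ∑ b ∈ B, rst p F a b + ∑ b ∈ B, F a b = 2 * ∑ b ∈ B, p a b := by
      rw [mul_sum, ← sum_add_distrib]
      refine sum_congr rfl fun b hb => ?_
      have := hF.le a ha b hb
      unfold rst
      omega
    have h4 : (if a = u then 2 else 0) = 2 * (if a = u then 1 else 0) := by split_ifs <;> rfl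
    have h5 : (if a = v then 2 else 0) = 2 * (if a = v then 1 else 0) := by split_ifs <;> rfl
    rw [h4, h5] at h1
    unfold md at h2
    omega
  · have h1 := hF.col b hb
    have h2 := h.degB b hb
    have h3 : ∑ a ∈ A, rst p F a b + ∑ a ∈ A, F a b = 2 * ∑ a ∈ A, p a b := by
      rw [mul_sum, ← sum_add_distrib]
      refine sum_congr rfl fun a ha => ?_
      have := hF.le a ha b hb
      unfold rst
      omega
    omega
  · have h2 := h.balG hF X
    rw [E_add, E_two, E_two, E_pr A h.hx₁ h.hy₁, E_pr A h.hx₂ h.hy₂]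
    have hnv' : nn A X = nn B X + 1 → Sp x₁ y₁ x₂ y₂ X → 2 ≤ up A B (rst p F) X := by
      intro h3 h4
      by_contra h5
      exact hnv X ⟨h3, by omega, h4⟩
    rcases cr_cases x₁ y₁ X with c | c | c | c <;> rcases cr_cases x₂ y₂ X with d | d | d | d
    all_goals first
      | (clear hnv'; omega)
      | skip
    all_goals
      by_cases h6 : nn A X = nn B X + 1
      · have h7 := hnv' h6 (by
          first
            | exact Or.inl ⟨c.1, c.2.1, d.1, d.2.1⟩
            | exact Or.inr ⟨c.1, c.2.1, d.1, d.2.1⟩)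
        omega
      · clear hnv'
        omega

theorem colZ (h : Core p A B x₁ y₁ x₂ y₂ u v) {F : V → V → ℕ} (hF : Fl p A B u v F)
    (hnv : ∀ X, ¬ Viol p A B x₁ y₁ x₂ y₂ F X) :
    H76TW.Col 4 (mkq A B (rst p F) (fun x y => 2 * pr x₁ y₁ x y + 2 * pr x₂ y₂ x y)) := by
  obtain ⟨n1, n2, n3, n4, n5⟩ := h.nodup
  refine col_of_sides (h.rgZ hF hnv) (fun x => decide (x ∈ A ∧ x ≠ x₁)) ?_
  set q := mkq A B (rst p F) (fun x y => 2 * pr x₁ y₁ x y + 2 * pr x₂ y₂ x y) with hq
  have hBB : ∀ x ∈ B, ∀ y ∈ B, q x y = 0 := by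
    intro x hx y hy
    by_contra hne
    have h1 : pr x₁ y₁ x y = 0 := by
      by_contra h0
      rcases pr_ne h0 with h1 | h1
      · exact disjoint_left.1 h.disj h.hx₁ (h1.1 ▸ hx)
      · exact disjoint_left.1 h.disj h.hy₁ (h1.1 ▸ hx)
    have h2 : pr x₂ y₂ x y = 0 := by
      by_contra h0
      rcases pr_ne h0 with h1 | h1
      · exact disjoint_left.1 h.disj h.hx₂ (h1.1 ▸ hx)
      · exact disjoint_left.1 h.disj h.hy₂ (h1.1 ▸ hx)
    apply hne
    rw [hq]
    unfold mkq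
    beta_reduce
    rw [ext_BB h.disj _ hx hy, h1, h2]
  have hAA : ∀ x ∈ A, ∀ y ∈ A, q x y ≠ 0 → x ≠ x₁ → y ≠ x₁ →
      (x = x₂ ∧ y = y₂) ∨ (x = y₂ ∧ y = x₂) := by
    intro x hx y hy hne hx1 hy1
    refine pr_ne fun h' => hne ?_
    have h1 : pr x₁ y₁ x y = 0 := by
      by_contra h0
      rcases pr_ne h0 with h1 | h1
      · exact hx1 h1.1
      · exact hy1 h1.2
    rw [hq]
    unfold mkq
    beta_reduce
    rw [ext_AA h.disj _ hx hy, h1, h']
  have key : ∀ x y, q x y ≠ 0 → ¬ (x ∈ A ∧ x ≠ x₁) → ¬ (y ∈ A ∧ y ≠ x₁) → x = x₁ ∨ y = x₁ := by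
    intro x y hne h1 h2
    by_contra hcon
    push Not at hcon
    have hx : x ∈ B := (h.all x).resolve_left (fun h' => h1 ⟨h', hcon.1⟩)
    have hy : y ∈ B := (h.all y).resolve_left (fun h' => h2 ⟨h', hcon.2⟩)
    exact hne (hBB x hx y hy)
  intro x y z w h1 h2 h3 h4 h5
  rw [decide_eq_decide] at h3 h4 h5
  by_cases hx : x ∈ A ∧ x ≠ x₁
  · have hy := h3.1 hx
    have hz := h5.1 hx
    have hw := h4.1 hz
    rcases hAA x hx.1 y hy.1 h1 hx.2 hy.2 with ⟨k1, k2⟩ | ⟨k1, k2⟩ <;>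
      rcases hAA z hz.1 w hw.1 h2 hz.2 hw.2 with ⟨k3, k4⟩ | ⟨k3, k4⟩
    · exact Or.inl (Or.inl (k1.trans k3.symm))
    · exact Or.inl (Or.inr (k1.trans k4.symm))
    · exact Or.inl (Or.inr (k1.trans k4.symm))
    · exact Or.inl (Or.inl (k1.trans k3.symm))
  · have hy : ¬ (y ∈ A ∧ y ≠ x₁) := fun h' => hx (h3.2 h')
    have hz : ¬ (z ∈ A ∧ z ≠ x₁) := fun h' => hx (h5.2 h')
    have hw : ¬ (w ∈ A ∧ w ≠ x₁) := fun h' => hz (h4.2 h')
    rcases key x y h1 hx hy with k1 | k1 <;> rcases key z w h2 hz hw with k2 | k2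
    · exact Or.inl (Or.inl (k1.trans k2.symm))
    · exact Or.inl (Or.inr (k1.trans k2.symm))
    · exact Or.inr (Or.inl (k1.trans k2.symm))
    · exact Or.inr (Or.inr (k1.trans k2.symm))

theorem noviol (h : Core p A B x₁ y₁ x₂ y₂ u v) : ∃ F, Fl p A B u v F ∧
    ∀ X, ¬ Viol p A B x₁ y₁ x₂ y₂ F X := by
  obtain ⟨F, h1, h2, h3, h4⟩ := h.flow
  have hF : Fl p A B u v F := ⟨h1, h2, h3⟩
  refine ⟨F, hF, ?_⟩
  rcases h4 with h4 | ⟨X', hD, hdn, hup, hsup⟩
  · intro X hX
    have k1 := (h.up_lower hX.1 hX.2.2).1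
    have k2 : up A B (rst p F) X + up A B F X = 2 * up A B p X := E_rst hF.le _ _
    have k3 : up A B F X ≤ up A B p X := E_le A B _ _ fun a ha b hb _ _ => h4 a ha b hb
    have k4 := hX.2.1
    omega
  · intro X hX
    rcases h.uncross hF hD hdn hup hX with h5 | h5
    · exact h.no_super hF hD hsup subset_union_right h5
    · refine h.no_super hF hD hsup ?_ (h.viol_compl hF h5)
      intro z hz
      rw [mem_compl, mem_sdiff]
      exact fun h' => h'.2 hz

theorem cover (h : Core p A B x₁ y₁ x₂ y₂ u v) : H76FC.Cover 2 3 p := by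
  obtain ⟨F, hF, hnv⟩ := h.noviol
  have h1 := col_add (h.colY hF) (h.colZ hF hnv)
  apply (H76TW.span V 2 3 p h.rg).2
  refine H76TW.col_congr h1 rfl ?_
  intro x y
  unfold mkq
  beta_reduce
  rcases h.all x with hx | hx <;> rcases h.all y with hy | hy
  · rw [ext_AA h.disj _ hx hy, ext_AA h.disj _ hx hy, h.mono x hx y hy]
    ring
  · have k1 := hF.le x hx y hy
    have k2 : ∀ s t : V, s ∈ A → t ∈ A → pr s t x y = 0 := by
      intro s t hs ht
      by_contra h0
      rcases pr_ne h0 with h1 | h1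
      · exact disjoint_left.1 h.disj ht (h1.2 ▸ hy)
      · exact disjoint_left.1 h.disj hs (h1.2 ▸ hy)
    rw [ext_AB h.disj _ hx hy, ext_AB h.disj _ hx hy, k2 _ _ h.hu h.hv, k2 _ _ h.hx₁ h.hy₁,
      k2 _ _ h.hx₂ h.hy₂]
    unfold rst
    omega
  · have k1 := hF.le y hy x hx
    have k2 : ∀ s t : V, s ∈ A → t ∈ A → pr s t x y = 0 := by
      intro s t hs ht
      by_contra h0
      rcases pr_ne h0 with h1 | h1
      · exact disjoint_left.1 h.disj hs (h1.1 ▸ hx)
      · exact disjoint_left.1 h.disj ht (h1.1 ▸ hx)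
    rw [ext_BA h.disj _ hy hx, ext_BA h.disj _ hy hx, k2 _ _ h.hu h.hv, k2 _ _ h.hx₁ h.hy₁,
      k2 _ _ h.hx₂ h.hy₂, h.rg.symm x y]
    unfold rst
    omega
  · have k2 : ∀ s t : V, s ∈ A → t ∈ A → pr s t x y = 0 := by
      intro s t hs ht
      by_contra h0
      rcases pr_ne h0 with h1 | h1
      · exact disjoint_left.1 h.disj hs (h1.1 ▸ hx)
      · exact disjoint_left.1 h.disj ht (h1.1 ▸ hx)
    rw [ext_BB h.disj _ hx hy, ext_BB h.disj _ hx hy, k2 _ _ h.hu h.hv, k2 _ _ h.hx₁ h.hy₁,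
      k2 _ _ h.hx₂ h.hy₂, h.B0 x hx y hy]

end Core

end Pool.Agent.TH435.BF
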