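import Pool.Agent.TH435.BF.Glue

/-!
# The edges inside the larger side
-/

set_option autoImplicit false

namespace Pool.Agent.TH435.BF

open Finset H840R6

variable {V : Type} [Fintype V] [DecidableEq V]

variable {p : V → V → ℕ} {A B : Finset V}

theorem cover_of_col (hp : H76FC.RGraph 3 p) (hc : H76TW.Col 3 p) : H76FC.Cover 2 3 p :=
  (H76TW.span V 2 3 p hp).2 (H76TW.col_congr (col_add hc hc) rfl (fun u v => by ring))

/-- a cubic multigraph with sides `A`, `B`, no edges inside `B` and `|A| = |B| + 2` -/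
structure Near (p : V → V → ℕ) (A B : Finset V) : Prop where
  rg : H76FC.RGraph 3 p
  disj : Disjoint A B
  all : ∀ x, x ∈ A ∨ x ∈ B
  B0 : ∀ x ∈ B, ∀ y ∈ B, p x y = 0
  card : A.card = B.card + 2

namespace Near

theorem univ_eq (h : Near p A B) : (univ : Finset V) = A ∪ B := by
  ext x
  simpa using h.all x

theorem degA (h : Near p A B) (a : V) : ∑ b ∈ B, p a b + ∑ a' ∈ A, p a a' = 3 := by
  have h1 := h.rg.reg a
  rw [h.univ_eq, sum_union h.disj] at h1
  omega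

theorem degB (h : Near p A B) (b : V) (hb : b ∈ B) : ∑ a ∈ A, p a b = 3 := by
  have h1 := h.degA b
  rw [sum_eq_zero (fun x hx => h.B0 b hb x hx), zero_add] at h1
  rw [← h1]
  exact sum_congr rfl fun a _ => h.rg.symm a b

theorem inner (h : Near p A B) : ∑ a ∈ A, ∑ a' ∈ A, p a a' = 6 := by
  have h1 : ∑ a ∈ A, ∑ b ∈ B, p a b + ∑ a ∈ A, ∑ a' ∈ A, p a a' = 3 * A.card := by
    rw [← sum_add_distrib, mul_comm, ← smul_eq_mul, ← sum_const]
    exact sum_congr rfl fun a _ => h.degA a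
  have h2 : ∑ b ∈ B, ∑ a ∈ A, p a b = 3 * B.card := by
    rw [mul_comm, ← smul_eq_mul, ← sum_const]
    exact sum_congr rfl fun b hb => h.degB b hb
  rw [sum_comm] at h2
  have h3 := h.card
  omega

/-- case I: a vertex with two mono edges -/
theorem col_of_two (h : Near p A B) {z : V} (hz : z ∈ A) (h2 : 2 ≤ ∑ a ∈ A, p z a) :
    H76TW.Col 3 p := by
  have hrg := (H76TW.span V 2 3 p h.rg).1
  have hl := h.rg.loopless
  have hs := h.rg.symm
  have hrest : ∑ a ∈ A.erase z, ∑ b ∈ A.erase z, p a b ≤ 2 := by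
    have h1 := h.inner
    rw [← add_sum_erase A _ hz] at h1
    have h3 : ∀ a, ∑ b ∈ A, p a b = p a z + ∑ b ∈ A.erase z, p a b := fun a =>
      (add_sum_erase A _ hz).symm
    have h4 : ∑ a ∈ A.erase z, ∑ b ∈ A, p a b =
        ∑ a ∈ A.erase z, p z a + ∑ a ∈ A.erase z, ∑ b ∈ A.erase z, p a b := by
      rw [← sum_add_distrib]
      refine sum_congr rfl fun a _ => ?_
      rw [h3 a, hs a z]
    have h5 : ∑ b ∈ A, p z b = ∑ a ∈ A.erase z, p z a := by
      rw [h3 z, hl z, zero_add]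
    rw [h4] at h1
    rw [h5] at h1 h2
    omega
  have hmeet : ∀ x ∈ A, ∀ y ∈ A, ∀ s ∈ A, ∀ t ∈ A, x ≠ z → y ≠ z → s ≠ z → t ≠ z →
      p x y ≠ 0 → p s t ≠ 0 → (x = s ∨ x = t) ∨ (y = s ∨ y = t) := by
    intro x hx y hy s hs' t ht n1 n2 n3 n4 hxy hst
    by_contra hcon
    push Not at hcon
    obtain ⟨⟨c1, c2⟩, c3, c4⟩ := hcon
    have nxy : x ≠ y := fun e => hxy (by rw [e, hl])
    have nst : s ≠ t := fun e => hst (by rw [e, hl])
    have hsub : ({x, y, s, t} : Finset V) ⊆ A.erase z := by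
      intro w hw
      simp only [mem_insert, mem_singleton] at hw
      rw [mem_erase]
      rcases hw with rfl | rfl | rfl | rfl
      · exact ⟨n1, hx⟩
      · exact ⟨n2, hy⟩
      · exact ⟨n3, hs'⟩
      · exact ⟨n4, ht⟩
    have hge : ∀ w w' : V, w' ∈ A.erase z → p w w' ≠ 0 → 1 ≤ ∑ b ∈ A.erase z, p w b := by
      intro w w' hw' hne
      have := single_le_sum (f := fun b => p w b) (fun _ _ => Nat.zero_le _) hw'
      have h0 : 1 ≤ p w w' := Nat.one_le_iff_ne_zero.2 hne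
      exact h0.trans this
    have h1 : ∑ a ∈ ({x, y, s, t} : Finset V), ∑ b ∈ A.erase z, p a b ≤
        ∑ a ∈ A.erase z, ∑ b ∈ A.erase z, p a b := sum_le_sum_of_subset hsub
    rw [sum_insert (by simp [nxy, c1, c2]), sum_insert (by simp [c3, c4]),
      sum_insert (by simp [nst]), sum_singleton] at h1
    have g1 := hge x y (mem_erase.2 ⟨n2, hy⟩) hxy
    have g2 := hge y x (mem_erase.2 ⟨n1, hx⟩) (by rw [hs]; exact hxy)
    have g3 := hge s t (mem_erase.2 ⟨n4, ht⟩) hst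
    have g4 := hge t s (mem_erase.2 ⟨n3, hs'⟩) (by rw [hs]; exact hst)
    omega
  refine col_of_sides hrg (fun x => decide (x ∈ A ∧ x ≠ z)) ?_
  have key : ∀ x y, p x y ≠ 0 → ¬ (x ∈ A ∧ x ≠ z) → ¬ (y ∈ A ∧ y ≠ z) → x = z ∨ y = z := by
    intro x y hne h1 h2
    by_contra hcon
    push Not at hcon
    have hx : x ∈ B := (h.all x).resolve_left (fun h' => h1 ⟨h', hcon.1⟩)
    have hy : y ∈ B := (h.all y).resolve_left (fun h' => h2 ⟨h', hcon.2⟩)
    exact hne (h.B0 x hx y hy)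
  intro x y s w h1 h2 h3 h4 h5
  rw [decide_eq_decide] at h3 h4 h5
  by_cases hx : x ∈ A ∧ x ≠ z
  · have hy := h3.1 hx
    have hs' := h5.1 hx
    have hw := h4.1 hs'
    exact hmeet x hx.1 y hy.1 s hs'.1 w hw.1 hx.2 hy.2 hs'.2 hw.2 h1 h2
  · have hy : ¬ (y ∈ A ∧ y ≠ z) := fun h' => hx (h3.2 h')
    have hs' : ¬ (s ∈ A ∧ s ≠ z) := fun h' => hx (h5.2 h')
    have hw : ¬ (w ∈ A ∧ w ≠ z) := fun h' => hs' (h4.2 h')
    rcases key x y h1 hx hy with k1 | k1 <;> rcases key s w h2 hs' hw with k2 | k2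
    · exact Or.inl (Or.inl (k1.trans k2.symm))
    · exact Or.inl (Or.inr (k1.trans k2.symm))
    · exact Or.inr (Or.inl (k1.trans k2.symm))
    · exact Or.inr (Or.inr (k1.trans k2.symm))

/-- the mono edges at `x` -/
theorem partner (h : Near p A B) (hd : ∀ a ∈ A, ∑ b ∈ A, p a b ≤ 1) {x y : V} (hx : x ∈ A)
    (hy : y ∈ A) (hxy : p x y ≠ 0) (b : V) (hb : b ∈ A) : p x b = if b = y then 1 else 0 := by
  have h1 := hd x hx
  rw [← add_sum_erase A _ hy] at h1
  by_cases hby : b = y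
  · subst hby
    rw [if_pos rfl]
    omega
  · rw [if_neg hby]
    have h2 := single_le_sum (f := fun b => p x b) (s := A.erase y) (fun _ _ => Nat.zero_le _)
      (mem_erase.2 ⟨hby, hb⟩)
    have h3 : p x b ≤ ∑ a ∈ A.erase y, p x a := h2
    omega

/-- picking one mono edge outside the closed set `S` -/
theorem pick (h : Near p A B) (hd : ∀ a ∈ A, ∑ b ∈ A, p a b ≤ 1) {S : Finset V} {n : ℕ}
    (hcl : ∀ a ∈ S, ∀ b ∈ A, p a b ≠ 0 → b ∈ S)
    (hn : ∑ a ∈ A \ S, ∑ b ∈ A, p a b = n + 2) :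
    ∃ x ∈ A, ∃ y ∈ A, x ∉ S ∧ y ∉ S ∧ x ≠ y ∧ p x y ≠ 0 ∧
      (∀ a ∈ insert x (insert y S), ∀ b ∈ A, p a b ≠ 0 → b ∈ insert x (insert y S)) ∧
      ∑ a ∈ A \ (insert x (insert y S)), ∑ b ∈ A, p a b = n := by
  have hs := h.rg.symm
  have hl := h.rg.loopless
  obtain ⟨x, hx, hx2⟩ := exists_ne_zero_of_sum_ne_zero (s := A \ S) (f := fun a => ∑ b ∈ A, p a b)
    (by
      have : ∑ a ∈ A \ S, ∑ b ∈ A, p a b ≠ 0 := by omega
      exact this)
  rw [mem_sdiff] at hx
  obtain ⟨y, hy, hxy⟩ := exists_ne_zero_of_sum_ne_zero hx2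
  have hyS : y ∉ S := by
    intro hyS
    exact hx.2 (hcl y hyS x hx.1 (by rw [hs]; exact hxy))
  have nxy : x ≠ y := fun e => hxy (by rw [e, hl])
  refine ⟨x, hx.1, y, hy, hx.2, hyS, nxy, hxy, ?_, ?_⟩
  · intro a ha b hb hab
    rw [mem_insert, mem_insert] at ha
    rcases ha with rfl | rfl | ha
    · have h1 := h.partner hd hx.1 hy hxy b hb
      by_cases hby : b = y
      · rw [hby]; simp
      · rw [if_neg hby] at h1
        exact absurd h1 hab
    · have h1 := h.partner hd hy hx.1 (by rw [hs]; exact hxy) b hb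
      by_cases hbx : b = x
      · rw [hbx]; simp
      · rw [if_neg hbx] at h1
        exact absurd h1 hab
    · have := hcl a ha b hb hab
      simp [this]
  · have e1 : A \ S = insert x (insert y (A \ (insert x (insert y S)))) := by
      ext w
      simp only [mem_sdiff, mem_insert]
      constructor
      · rintro ⟨h1, h2⟩
        by_cases hwx : w = x
        · exact Or.inl hwx
        · by_cases hwy : w = y
          · exact Or.inr (Or.inl hwy)
          · exact Or.inr (Or.inr ⟨h1, by tauto⟩)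
      · rintro (rfl | rfl | ⟨h1, h2⟩)
        · exact hx
        · exact ⟨hy, hyS⟩
        · exact ⟨h1, fun h' => h2 (Or.inr (Or.inr h'))⟩
    have one : ∀ s t : V, s ∈ A → t ∈ A → p s t ≠ 0 → ∑ b ∈ A, p s b = 1 := by
      intro s t hs' ht hst
      rw [sum_congr rfl (fun b hb => h.partner hd hs' ht hst b hb), sum_ite_eq' A t, if_pos ht]
    rw [e1, sum_insert (by simp [nxy]), sum_insert (by simp), one x y hx.1 hy hxy,
      one y x hy hx.1 (by rw [hs]; exact hxy)] at hn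
    omega

/-- case II: three pairwise disjoint mono edges -/
theorem core (h : Near p A B) (hd : ∀ a ∈ A, ∑ b ∈ A, p a b ≤ 1) (hnt : H76TX.NoTight 3 p) :
    ∃ x₁ y₁ x₂ y₂ u v, Core p A B x₁ y₁ x₂ y₂ u v := by
  have hs := h.rg.symm
  have h6 : ∑ a ∈ A \ (∅ : Finset V), ∑ b ∈ A, p a b = 4 + 2 := by
    rw [sdiff_empty]; exact h.inner
  obtain ⟨x₁, hx₁, y₁, hy₁, _, _, n1, e1, c1, s1⟩ := h.pick hd (S := ∅) (by simp) h6
  obtain ⟨x₂, hx₂, y₂, hy₂, a1, a2, n2, e2, c2, s2⟩ := h.pick hd (n := 2) c1 s1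
  obtain ⟨u, hu, v, hv, a3, a4, n3, e3, c3, s3⟩ := h.pick hd (n := 0) c2 s2
  simp only [mem_insert, notMem_empty, or_false, not_or] at a1 a2 a3 a4
  obtain ⟨a11, a12⟩ := a1
  obtain ⟨a21, a22⟩ := a2
  obtain ⟨a31, a32, a33, a34⟩ := a3
  obtain ⟨a41, a42, a43, a44⟩ := a4
  refine ⟨x₁, y₁, x₂, y₂, u, v, h.rg, h.disj, h.all, h.B0, h.card, ?_, ?_, hx₁, hy₁, hx₂, hy₂, hu, hv,
    hnt⟩
  · intro a ha b hb
    have k1 := h.partner hd hx₁ hy₁ e1 b hb
    have k2 := h.partner hd hy₁ hx₁ (by rw [hs]; exact e1) b hb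
    have k3 := h.partner hd hx₂ hy₂ e2 b hb
    have k4 := h.partner hd hy₂ hx₂ (by rw [hs]; exact e2) b hb
    have k5 := h.partner hd hu hv e3 b hb
    have k6 := h.partner hd hv hu (by rw [hs]; exact e3) b hb
    unfold pr
    by_cases q1 : a = x₁
    · subst q1
      rw [k1]
      simp [n1, Ne.symm a11, Ne.symm a21, Ne.symm a33, Ne.symm a43]
    by_cases q2 : a = y₁
    · subst q2
      rw [k2]
      simp [Ne.symm n1, Ne.symm a12, Ne.symm a22, Ne.symm a34, Ne.symm a44]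
    by_cases q3 : a = x₂
    · subst q3
      rw [k3]
      simp [n2, a11, a12, Ne.symm a31, Ne.symm a41]
    by_cases q4 : a = y₂
    · subst q4
      rw [k4]
      simp [Ne.symm n2, a21, a22, Ne.symm a32, Ne.symm a42]
    by_cases q5 : a = u
    · subst q5
      rw [k5]
      simp [n3, a31, a32, a33, a34]
    by_cases q6 : a = v
    · subst q6
      rw [k6]
      simp [Ne.symm n3, a41, a42, a43, a44]
    · have h0 : p a b = 0 := by
        rw [sum_eq_zero_iff] at s3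
        have h1 := s3 a (by
          simp only [mem_sdiff, mem_insert, notMem_empty, or_false, not_or]
          exact ⟨ha, q5, q6, q3, q4, q1, q2⟩)
        rw [sum_eq_zero_iff] at h1
        exact h1 b hb
      rw [h0]
      simp [q1, q2, q3, q4, q5, q6]
  · simp only [List.nodup_cons, List.mem_cons, List.not_mem_nil, or_false, not_or, not_false_eq_true,
      List.nodup_nil, and_true]
    exact ⟨⟨n1, Ne.symm a11, Ne.symm a21, Ne.symm a33, Ne.symm a43⟩,
      ⟨Ne.symm a12, Ne.symm a22, Ne.symm a34, Ne.symm a44⟩,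
      ⟨n2, Ne.symm a31, Ne.symm a41⟩, ⟨Ne.symm a32, Ne.symm a42⟩, n3⟩

/-- the case without nontrivial tight cuts -/
theorem cover_nt (h : Near p A B) (hnt : H76TX.NoTight 3 p) : H76FC.Cover 2 3 p := by
  by_cases hd : ∀ a ∈ A, ∑ b ∈ A, p a b ≤ 1
  · obtain ⟨x₁, y₁, x₂, y₂, u, v, hc⟩ := h.core hd hnt
    exact hc.cover
  · push Not at hd
    obtain ⟨z, hz, h2⟩ := hd
    exact cover_of_col h.rg (h.col_of_two hz h2)

end Near

end Pool.Agent.TH435.BF
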