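import Pool.Agent.H76R2.FC.ToR
import Pool.Agent.H76R2.TW.Bip

/-!
# From coloured multiplicities to disjoint perfect matchings of a multigraph
-/

set_option autoImplicit false

namespace Pool.Agent.TH435.BF

open Finset

theorem trans {n m k : ℕ} (ends : Fin m → Sym2 (Fin n)) (q : Fin n → Fin n → ℕ)
    (hq : ∀ u v, q u v ≤ H76FC.mult ends u v) (h0 : ∀ u, q u u = 0)
    (hreg : ∀ u, ∑ v, q u v = k) (hc : H76TW.Col k q) :
    ∃ M : Fin k → Set (Fin m), (∀ i v, ∃! e, e ∈ M i ∧ v ∈ ends e) ∧
      ∀ i j, i ≠ j → Disjoint (M i) (M j) := by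
  classical
  obtain ⟨N, hN, hcard⟩ := hc
  have hne : ∀ i u, N i u ≠ u := by
    intro i u hiu
    have h1 : ∑ v, (univ.filter fun i => N i u = v).card = k := by
      rw [← card_eq_sum_card_fiberwise (f := fun i => N i u) (s := univ) (t := univ)
        (fun _ _ => mem_coe.2 (mem_univ _)), card_univ, Fintype.card_fin]
    rw [← add_sum_erase univ _ (mem_univ u)] at h1
    have h2 := hreg u
    rw [← add_sum_erase univ _ (mem_univ u), h0] at h2
    have h3 : ∑ v ∈ univ.erase u, (univ.filter fun i => N i u = v).card =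
        ∑ v ∈ univ.erase u, q u v :=
      sum_congr rfl fun v hv => hcard u v (mem_erase.1 hv).1.symm
    have h4 : 0 < (univ.filter fun i => N i u = u).card :=
      card_pos.2 ⟨i, by simp [hiu]⟩
    omega
  set I : Sym2 (Fin n) → Finset (Fin k) := fun z =>
    univ.filter (fun i => ∃ u v, z = s(u, v) ∧ N i u = v) with hI
  have hmemI : ∀ i u v, i ∈ I s(u, v) ↔ N i u = v := by
    intro i u v
    simp only [hI, mem_filter, mem_univ, true_and]
    constructor
    · rintro ⟨a, b, hz, hab⟩
      rcases Sym2.eq_iff.1 hz with ⟨h1, h2⟩ | ⟨h1, h2⟩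
      · rw [h1, h2]; exact hab
      · rw [h1, h2, ← hab, hN]
    · intro h
      exact ⟨u, v, rfl, h⟩
  have hle : ∀ z, Fintype.card {i // i ∈ I z} ≤ Fintype.card {e // ends e = z} := by
    intro z
    induction z using Sym2.inductionOn with
    | hf u v =>
      rw [Fintype.card_coe, Fintype.card_subtype]
      by_cases huv : u = v
      · subst huv
        have : I s(u, u) = ∅ := by
          rw [eq_empty_iff_forall_notMem]
          intro i hi
          exact hne i u ((hmemI i u u).1 hi)
        rw [this, card_empty]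
        exact Nat.zero_le _
      · have h1 : I s(u, v) = univ.filter fun i => N i u = v := by
          ext i
          rw [hmemI, mem_filter]
          simp
        rw [h1, hcard u v huv]
        exact hq u v
  obtain ⟨g⟩ : Nonempty (∀ z, {i // i ∈ I z} ↪ {e // ends e = z}) :=
    ⟨fun z => (Function.Embedding.nonempty_of_card_le (hle z)).some⟩
  refine ⟨fun i => {e | ∃ h : i ∈ I (ends e), (g (ends e) ⟨i, h⟩ : Fin m) = e}, ?_, ?_⟩
  · intro i v
    have hi : i ∈ I s(v, N i v) := (hmemI i v _).2 rfl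
    have he := (g s(v, N i v) ⟨i, hi⟩).2
    refine ⟨(g s(v, N i v) ⟨i, hi⟩ : Fin m), ⟨?_, ?_⟩, ?_⟩
    · refine ⟨by rw [he]; exact hi, ?_⟩
      have key : ∀ z (hz : ends (g s(v, N i v) ⟨i, hi⟩ : Fin m) = z) (h : i ∈ I z)
          (h' : i ∈ I (ends (g s(v, N i v) ⟨i, hi⟩ : Fin m))),
          ((g (ends (g s(v, N i v) ⟨i, hi⟩ : Fin m)) ⟨i, h'⟩ : {e // _}) : Fin m) =
            (g z ⟨i, h⟩ : Fin m) := by
        intro z hz h h'
        subst hz
        rfl
      exact key _ he hi _
    · show v ∈ ends _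
      rw [he]
      exact Sym2.mem_mk_left _ _
    · rintro e ⟨⟨h, hge⟩, hv⟩
      obtain ⟨w, hw⟩ := Sym2.mem_iff_exists.1 hv
      have h1 : N i v = w := by
        rw [hw] at h
        exact (hmemI i v w).1 h
      have key : ∀ z (hz : ends e = z) (h' : i ∈ I z), (g (ends e) ⟨i, h⟩ : Fin m) =
          (g z ⟨i, h'⟩ : Fin m) := by
        intro z hz h'
        subst hz
        rfl
      rw [← hge]
      exact key _ (by rw [hw, h1]) hi
  · intro i j hij
    rw [Set.disjoint_left]
    rintro e ⟨h, he⟩ ⟨h', he'⟩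
    have h1 := (g (ends e)).injective (Subtype.ext (he.trans he'.symm))
    exact hij (congrArg Subtype.val h1)

end Pool.Agent.TH435.BF
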