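import Pool.Agent.TH435.BF.Basic
import Pool.Agent.TH435.BF.Trans
import Pool.Agent.H840R6.Gale

/-!
# The factor through all mono edges at one vertex
-/

set_option autoImplicit false

namespace Pool.Agent.TH435.BF

open Finset H840R6

variable {V : Type} [Fintype V] [DecidableEq V]

omit [Fintype V] in
theorem wt_le (A : Finset V) {f g : V → ℕ} (X : Finset V) (h : ∀ a ∈ A, f a ≤ g a) :
    wt A f X ≤ wt A g X := by
  unfold wt
  refine sum_le_sum fun a ha => ?_
  split_ifs
  · exact h a ha
  · exact le_refl _

/-- the numbers of one vertex set -/
theorem star_cond {r : ℕ} {p : V → V → ℕ} {A B : Finset V} (hp : H76FC.RGraph r p)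
    (hd : Disjoint A B) (hall : ∀ x, x ∈ A ∨ x ∈ B) (hB0 : ∀ x ∈ B, ∀ y ∈ B, p x y = 0)
    {x : V} (hx : x ∈ A) (X : Finset V) :
    (∑ a ∈ A, p x a) * nn B X + (∑ a ∈ A, p x a) * ii x X + wt A (fun a => p x a) X ≤
      (∑ a ∈ A, p x a) * nn A X + up A B p X := by
  have hU : (univ : Finset V) = A ∪ B := by
    ext x
    simpa using hall x
  set k := ∑ a ∈ A, p x a with hk
  set h : V → ℕ := fun a => ∑ a' ∈ A, p a a' with hh
  have hrow : ∀ a ∈ A, ∑ b ∈ B, p a b + h a = r := by
    intro a _
    have h1 := hp.reg a
    rw [hU, sum_union hd] at h1
    simp only [hh]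
    omega
  have hcol : ∀ b ∈ B, ∑ a ∈ A, p a b = r := by
    intro b hb
    have h1 := hp.reg b
    rw [hU, sum_union hd, sum_eq_zero (s := B) (fun y hy => hB0 b hb y hy), add_zero] at h1
    rw [← h1]
    exact sum_congr rfl fun a _ => hp.symm a b
  have hb := bal hrow hcol X
  have hkr : k ≤ r := by
    have := hrow x hx
    simp only [hh] at this
    omega
  -- lower bound for the mono degrees
  have hmu : k * ii x X + wt A (fun a => p x a) X ≤ wt A h X := by
    rw [← wt_single A hx k X, ← wt_add]
    refine wt_le A X fun a ha => ?_
    by_cases hax : a = x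
    · subst hax
      rw [if_pos rfl, hp.loopless a]
      simp [hh, hk]
    · rw [if_neg hax, zero_add]
      simp only [hh]
      rw [hp.symm x a]
      exact single_le_sum (f := fun a' => p a a') (fun _ _ => Nat.zero_le _) hx
  have hsig : wt A (fun a => p x a) X ≤ k := by
    unfold wt
    rw [hk]
    refine sum_le_sum fun a _ => ?_
    split_ifs
    · exact le_refl _
    · exact Nat.zero_le _
  have hix := ii_le x X
  rcases Nat.lt_or_ge (nn B X) (nn A X) with hlt | hge
  · -- more vertices of `A`
    by_cases h1 : nn A X = nn B X + 1
    · have hodd : Odd X.card := by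
        have e1 : X.card = nn A X + nn B X := by
          unfold nn
          rw [← card_union_of_disjoint]
          · congr 1
            ext z
            have := hall z
            simp only [mem_union, mem_inter]
            tauto
          · rw [disjoint_left]
            intro z h1 h2
            simp only [mem_inter] at h1 h2
            exact disjoint_left.1 hd h1.1 h2.1
        rw [e1, h1]
        exact ⟨nn B X, by ring⟩
      have hcut := hp.odd X hodd
      rw [cut_eq hd hall hp.symm hB0 X] at hcut
      -- the mono degrees inside `X`
      have hin : wt A h X = E A A p X X + E A A p X Xᶜ := by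
        unfold wt E
        rw [← sum_add_distrib]
        refine sum_congr rfl fun a _ => ?_
        simp only [hh]
        rw [← sum_add_distrib]
        by_cases ha : a ∈ X
        · rw [if_pos ha]
          refine sum_congr rfl fun a' _ => ?_
          by_cases ha' : a' ∈ X <;> simp [ha, ha']
        · rw [if_neg ha]
          symm
          refine sum_eq_zero fun a' _ => ?_
          simp [ha]
      by_cases hxX : x ∈ X
      · have hsig2 : 2 * wt A (fun a => p x a) X ≤ E A A p X X := by
          have e2 : wt A (fun a => p x a) X = ∑ a ∈ A, if a = x then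
              (∑ b ∈ A, if a ∈ X ∧ b ∈ X then p a b else 0) else 0 := by
            rw [sum_ite_eq' A x, if_pos hx]
            unfold wt
            refine sum_congr rfl fun b _ => ?_
            by_cases hb' : b ∈ X <;> simp [hxX, hb']
          have e3 : wt A (fun a => p x a) X = ∑ a ∈ A, if a = x then 0 else
              (if a ∈ X ∧ x ∈ X then p a x else 0) := by
            unfold wt
            refine sum_congr rfl fun b _ => ?_
            by_cases hbx : b = x
            · subst hbx
              have h9 := hp.loopless b
              simp [h9]
            · by_cases hb' : b ∈ X <;> simp [hxX, hb', hbx, hp.symm x b]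
          have e4 : 2 * wt A (fun a => p x a) X = ∑ a ∈ A, ((if a = x then
              (∑ b ∈ A, if a ∈ X ∧ b ∈ X then p a b else 0) else 0) + (if a = x then 0 else
              (if a ∈ X ∧ x ∈ X then p a x else 0))) := by
            rw [sum_add_distrib, ← e2, ← e3]
            ring
          rw [e4]
          unfold E
          refine sum_le_sum fun a _ => ?_
          by_cases hax : a = x
          · rw [if_pos hax, if_pos hax, add_zero]
          · rw [if_neg hax, if_neg hax, zero_add]
            exact single_le_sum (f := fun b => if a ∈ X ∧ b ∈ X then p a b else 0)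
              (fun _ _ => Nat.zero_le _) hx
        have i1 : ii x X = 1 := if_pos hxX
        have h5 : k * nn A X = k * nn B X + k * 1 := by rw [h1, Nat.mul_add]
        have h6 : r * nn A X = r * nn B X + r * 1 := by rw [h1, Nat.mul_add]
        rw [i1] at hmu ⊢
        omega
      · have i1 : ii x X = 0 := if_neg hxX
        have h5 : k * nn A X = k * nn B X + k * 1 := by rw [h1, Nat.mul_add]
        rw [i1]
        omega
    · have h2 : nn B X + 2 ≤ nn A X := by omega
      have h3 : k * (nn B X + 2) ≤ k * nn A X := Nat.mul_le_mul_left k h2
      have h4 : k * ii x X ≤ k * 1 := Nat.mul_le_mul_left k hix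
      rw [Nat.mul_add] at h3
      omega
  · obtain ⟨D, hD⟩ := Nat.exists_eq_add_of_le hge
    have h3 : k * D ≤ r * D := Nat.mul_le_mul_right D hkr
    have h5 : k * nn B X = k * nn A X + k * D := by rw [hD, Nat.mul_add]
    have h6 : r * nn B X = r * nn A X + r * D := by rw [hD, Nat.mul_add]
    omega

end Pool.Agent.TH435.BF
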