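import Pool.Agent.TH435.BF.Star

/-!
# Disjoint perfect matchings through the mono edges at one vertex
-/

set_option autoImplicit false

namespace Pool.Agent.TH435.BF

open Finset H840R6

variable {V : Type} [Fintype V] [DecidableEq V]

/-- the bipartite part of the factor -/
theorem star_flow {r : ℕ} {p : V → V → ℕ} {A B : Finset V} (hp : H76FC.RGraph r p)
    (hd : Disjoint A B) (hall : ∀ x, x ∈ A ∨ x ∈ B) (hB0 : ∀ x ∈ B, ∀ y ∈ B, p x y = 0)
    (hcard : A.card = B.card + 2) {x : V} (hx : x ∈ A) :
    ∃ F : V → V → ℕ, (∀ a ∈ A, ∀ b ∈ B, F a b ≤ p a b) ∧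
      (∀ a ∈ A, ∑ b ∈ B, F a b + (if a = x then ∑ a ∈ A, p x a else p x a) = ∑ a ∈ A, p x a) ∧
      (∀ b ∈ B, ∑ a ∈ A, F a b = ∑ a ∈ A, p x a) := by
  set k := ∑ a ∈ A, p x a with hk
  set f : V → ℕ := fun a => if a = x then 0 else k - p x a with hf
  have hple : ∀ a ∈ A, p x a ≤ k := fun a ha =>
    single_le_sum (f := fun a => p x a) (fun _ _ => Nat.zero_le _) ha
  have hfa : ∀ a ∈ A, f a + (if a = x then k else p x a) = k := by
    intro a ha
    simp only [hf]
    have := hple a ha
    split_ifs <;> omega
  have hfb : ∀ a ∈ A, f a + ((if a = x then k else 0) + p x a) = k := by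
    intro a ha
    simp only [hf]
    have h1 := hple a ha
    by_cases h : a = x
    · subst h
      have := hp.loopless a
      simp [this]
    · rw [if_neg h, if_neg h]
      omega
  have hsum : ∑ a ∈ A, f a = k * B.card := by
    have h1 : ∑ a ∈ A, (f a + ((if a = x then k else 0) + p x a)) = k * A.card := by
      rw [sum_congr rfl hfb, sum_const, smul_eq_mul, mul_comm]
    rw [sum_add_distrib, sum_add_distrib, sum_ite_eq' A x, if_pos hx, hcard, Nat.mul_add] at h1
    omega
  obtain ⟨F, hF1, hF2, hF3⟩ := gale A B (k * B.card) p f (fun _ => k) hsum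
    (by rw [sum_const, smul_eq_mul, mul_comm]) (by
      intro S W
      set X : Finset V := (A \ S) ∪ (B \ W) with hX
      have hBA : ∀ z ∈ B, z ∉ A := fun z hz hzA => disjoint_left.1 hd hzA hz
      have hXA : ∀ a ∈ A, (a ∈ X ↔ a ∉ S) := by
        intro a ha
        simp only [hX, mem_union, mem_sdiff]
        constructor
        · rintro (h | h)
          · exact h.2
          · exact absurd ha (hBA a h.1)
        · intro h; exact Or.inl ⟨ha, h⟩
      have hXB : ∀ b ∈ B, (b ∈ X ↔ b ∉ W) := by
        intro b hb
        simp only [hX, mem_union, mem_sdiff]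
        constructor
        · rintro (h | h)
          · exact absurd h.1 (hBA b hb)
          · exact h.2
        · intro h; exact Or.inr ⟨hb, h⟩
      have h1 := star_cond hp hd hall hB0 hx X
      rw [← hk] at h1
      have e1 : wt A f S + wt A f X = k * B.card := by
        rw [← hsum]
        unfold wt
        rw [← sum_add_distrib]
        refine sum_congr rfl fun a ha => ?_
        by_cases h : a ∈ S
        · rw [if_pos h, if_neg (fun h' => (hXA a ha).1 h' h), add_zero]
        · rw [if_neg h, if_pos ((hXA a ha).2 h), zero_add]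
      have e2 : wt A f X + (k * ii x X + wt A (fun a => p x a) X) = k * nn A X := by
        rw [← wt_single A hx k X, ← wt_add, ← wt_add]
        unfold wt nn
        rw [mul_comm, ← smul_eq_mul, ← sum_const]
        have h3 : A ∩ X = A.filter (fun a => a ∈ X) := by ext; simp
        rw [h3, sum_filter]
        refine sum_congr rfl fun a ha => ?_
        by_cases h : a ∈ X
        · rw [if_pos h, if_pos h]; exact hfb a ha
        · rw [if_neg h, if_neg h]
      have e3 : wt B (fun _ => k) W + k * nn B X = k * B.card := by
        have h3 : wt B (fun _ => k) W = k * (B.filter (fun b => b ∈ W)).card := by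
          unfold wt
          rw [← sum_filter, sum_const, smul_eq_mul, mul_comm]
        have h4 : nn B X = (B.filter (fun b => ¬ b ∈ W)).card := by
          unfold nn
          congr 1
          ext z
          simp only [mem_inter, mem_filter]
          constructor
          · rintro ⟨h5, h6⟩; exact ⟨h5, (hXB z h5).1 h6⟩
          · rintro ⟨h5, h6⟩; exact ⟨h5, (hXB z h5).2 h6⟩
        rw [h3, h4, ← Nat.mul_add, card_filter_add_card_filter_not]
      have e4 : up A B p X = cap A B p S W := by
        unfold up E cap
        refine sum_congr rfl fun a ha => sum_congr rfl fun b hb => ?_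
        have h5 := hXA a ha
        have h6 := hXB b hb
        by_cases h7 : a ∈ S <;> by_cases h8 : b ∈ W <;> simp [h5, h6, h7, h8]
      omega)
  refine ⟨F, hF1, ?_, hF3⟩
  intro a ha
  rw [hF2 a ha]
  exact hfa a ha

/-- the factor through all mono edges at `x` -/
theorem star_col {r : ℕ} {p : V → V → ℕ} {A B : Finset V} (hp : H76FC.RGraph r p)
    (hd : Disjoint A B) (hall : ∀ x, x ∈ A ∨ x ∈ B) (hB0 : ∀ x ∈ B, ∀ y ∈ B, p x y = 0)
    (hcard : A.card = B.card + 2) {x : V} (hx : x ∈ A) :
    ∃ q : V → V → ℕ, (∀ u v, q u v ≤ p u v) ∧ (∀ u, q u u = 0) ∧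
      (∀ u, ∑ v, q u v = ∑ a ∈ A, p x a) ∧ H76TW.Col (∑ a ∈ A, p x a) q := by
  have hU : (univ : Finset V) = A ∪ B := by
    ext x
    simpa using hall x
  have hBA : ∀ z ∈ B, z ∉ A := fun z hz hzA => disjoint_left.1 hd hzA hz
  have hAB : ∀ z ∈ A, z ∉ B := fun z hz hzB => disjoint_left.1 hd hz hzB
  obtain ⟨F, hF1, hF2, hF3⟩ := star_flow hp hd hall hB0 hcard hx
  set k := ∑ a ∈ A, p x a with hk
  have hFx : ∀ b ∈ B, F x b = 0 := by
    intro b hb
    have h1 := hF2 x hx
    rw [if_pos rfl] at h1
    have h2 : ∑ b ∈ B, F x b = 0 := by omega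
    rw [sum_eq_zero_iff] at h2
    exact h2 b hb
  set q : V → V → ℕ := fun u v => if u ∈ A then (if v ∈ B then F u v else
    (if u = x ∨ v = x then p u v else 0)) else (if v ∈ A then F v u else 0) with hq
  have q1 : ∀ u ∈ A, ∀ v ∈ B, q u v = F u v := by
    intro u hu v hv
    simp only [hq]
    rw [if_pos hu, if_pos hv]
  have q2 : ∀ u ∈ A, ∀ v ∈ A, q u v = if u = x ∨ v = x then p u v else 0 := by
    intro u hu v hv
    simp only [hq]
    rw [if_pos hu, if_neg (hAB v hv)]
  have q3 : ∀ u ∈ B, ∀ v ∈ A, q u v = F v u := by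
    intro u hu v hv
    simp only [hq]
    rw [if_neg (hBA u hu), if_pos hv]
  have q4 : ∀ u ∈ B, ∀ v ∈ B, q u v = 0 := by
    intro u hu v hv
    simp only [hq]
    rw [if_neg (hBA u hu), if_neg (hBA v hv)]
  have hle : ∀ u v, q u v ≤ p u v := by
    intro u v
    rcases hall u with hu | hu <;> rcases hall v with hv | hv
    · rw [q2 u hu v hv]
      split_ifs
      · exact le_refl _
      · exact Nat.zero_le _
    · rw [q1 u hu v hv]; exact hF1 u hu v hv
    · rw [q3 u hu v hv, hp.symm u v]; exact hF1 v hv u hu
    · rw [q4 u hu v hv]; exact Nat.zero_le _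
  have hsum : ∀ u, ∑ v, q u v = k := by
    intro u
    rw [hU, sum_union hd]
    rcases hall u with hu | hu
    · have h3 : ∑ v ∈ B, q u v = ∑ b ∈ B, F u b := sum_congr rfl fun v hv => q1 u hu v hv
      rw [sum_congr rfl (fun v hv => q2 u hu v hv), h3]
      have h1 := hF2 u hu
      by_cases hux : u = x
      · subst hux
        rw [if_pos rfl] at h1
        simp only [true_or, if_true]
        omega
      · rw [if_neg hux] at h1
        have h2 : ∑ v ∈ A, (if u = x ∨ v = x then p u v else 0) = p x u := by
          rw [sum_eq_single x]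
          · simp [hp.symm u x]
          · intro v _ hv
            simp [hux, hv]
          · intro h; exact absurd hx h
        omega
    · rw [sum_congr rfl (fun v hv => q3 u hu v hv), sum_congr rfl (fun v hv => q4 u hu v hv),
        hF3 u hu]
      simp
  refine ⟨q, hle, ?_, hsum, ?_⟩
  · intro u
    have := hle u u
    rw [hp.loopless u] at this
    omega
  · refine H76TW.bip_aux (A.erase x) (insert x B) ?_ k q ?_ ?_ (fun v _ => hsum v)
    · rw [disjoint_left]
      intro z hz hz'
      rw [mem_erase] at hz
      rw [mem_insert] at hz'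
      rcases hz' with h | h
      · exact hz.1 h
      · exact hAB z hz.2 h
    · intro u v
      rcases hall u with hu | hu <;> rcases hall v with hv | hv
      · rw [q2 u hu v hv, q2 v hv u hu, hp.symm u v]
        simp only [or_comm]
      · rw [q1 u hu v hv, q3 v hv u hu]
      · rw [q3 u hu v hv, q1 v hv u hu]
      · rw [q4 u hu v hv, q4 v hv u hu]
    · intro u v huv
      rcases hall u with hu | hu <;> rcases hall v with hv | hv
      · rw [q2 u hu v hv] at huv
        by_cases hux : u = x
        · subst hux
          right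
          refine ⟨mem_insert_self _ _, mem_erase.2 ⟨?_, hv⟩⟩
          rintro rfl
          simp [hp.loopless v] at huv
        · by_cases hvx : v = x
          · subst hvx
            left
            exact ⟨mem_erase.2 ⟨hux, hu⟩, mem_insert_self _ _⟩
          · rw [if_neg (by tauto)] at huv
            exact absurd rfl huv
      · rw [q1 u hu v hv] at huv
        left
        refine ⟨mem_erase.2 ⟨?_, hu⟩, mem_insert_of_mem hv⟩
        rintro rfl
        exact huv (hFx v hv)
      · rw [q3 u hu v hv] at huv
        right
        refine ⟨mem_insert_of_mem hu, mem_erase.2 ⟨?_, hv⟩⟩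
        rintro rfl
        exact huv (hFx u hu)
      · rw [q4 u hu v hv] at huv
        exact absurd rfl huv

end Pool.Agent.TH435.BF
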