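import Pool.Agent.TH435.BF.Ind
import Pool.Agent.H76R2.FC.ToR
import Pool.Agent.H76R2.FC.CoverIff

/-!
# Bipartite after deleting three edges
-/

set_option autoImplicit false

namespace Pool.Agent.TH435.BF

open Finset H840R6 H76FC

section

variable {V : Type} [Fintype V] [DecidableEq V]

variable {p : V → V → ℕ} {A B : Finset V}

/-- if at most three edges lie inside the two sides then there is a stable set with at least
`n / 2 - 1` vertices -/
theorem stable_of_sides (hp : RGraph 3 p) (hd : Disjoint A B) (hall : ∀ x, x ∈ A ∨ x ∈ B)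
    (hle : B.card ≤ A.card)
    (h6 : ∑ a ∈ A, ∑ b ∈ A, p a b + ∑ a ∈ B, ∑ b ∈ B, p a b ≤ 6) :
    ∃ Z : Finset V, (∀ u ∈ Z, ∀ v ∈ Z, p u v = 0) ∧ Fintype.card V ≤ 2 * Z.card + 2 := by
  have hl := hp.loopless
  have hs := hp.symm
  have hU : (univ : Finset V) = A ∪ B := by
    ext x
    simpa using hall x
  have hcV : Fintype.card V = A.card + B.card := by
    rw [← card_univ, hU, card_union_of_disjoint hd]
  have hVe : Even (Fintype.card V) := by
    by_contra hodd
    have := hp.odd univ (by simpa using hodd)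
    simp [H76FC.cut] at this
  have hdeg : ∀ x, ∑ y ∈ A, p x y + ∑ y ∈ B, p x y = 3 := by
    intro x
    rw [← sum_union hd, ← hU]
    exact hp.reg x
  have hA : ∑ a ∈ A, ∑ b ∈ A, p a b + ∑ a ∈ A, ∑ b ∈ B, p a b = 3 * A.card := by
    rw [← sum_add_distrib, mul_comm, ← smul_eq_mul, ← sum_const]
    exact sum_congr rfl fun a _ => hdeg a
  have hB : ∑ b ∈ B, ∑ a ∈ A, p b a + ∑ a ∈ B, ∑ b ∈ B, p a b = 3 * B.card := by
    rw [← sum_add_distrib, mul_comm, ← smul_eq_mul, ← sum_const]
    exact sum_congr rfl fun a _ => hdeg a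
  have hAB : ∑ b ∈ B, ∑ a ∈ A, p b a = ∑ a ∈ A, ∑ b ∈ B, p a b := by
    rw [sum_comm]
    exact sum_congr rfl fun a _ => sum_congr rfl fun b _ => hs b a
  have hev := Nat.even_iff.1 hVe
  by_cases hS : ∑ a ∈ B, ∑ b ∈ B, p a b = 0
  · refine ⟨B, ?_, by omega⟩
    intro u hu v hv
    rw [sum_eq_zero_iff] at hS
    have h1 := hS u hu
    rw [sum_eq_zero_iff] at h1
    exact h1 v hv
  · obtain ⟨x, hx, hx2⟩ := exists_ne_zero_of_sum_ne_zero hS
    have hrest : ∑ a ∈ B.erase x, ∑ b ∈ B.erase x, p a b ≤ 1 := by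
      have h1 : ∑ a ∈ B, ∑ b ∈ B, p a b = ∑ b ∈ B, p x b + ∑ a ∈ B.erase x, ∑ b ∈ B, p a b :=
        (add_sum_erase B _ hx).symm
      have h3 : ∀ a, ∑ b ∈ B, p a b = p a x + ∑ b ∈ B.erase x, p a b := fun a =>
        (add_sum_erase B _ hx).symm
      have h4 : ∑ a ∈ B.erase x, ∑ b ∈ B, p a b =
          ∑ a ∈ B.erase x, p x a + ∑ a ∈ B.erase x, ∑ b ∈ B.erase x, p a b := by
        rw [← sum_add_distrib]
        refine sum_congr rfl fun a _ => ?_
        rw [h3 a, hs a x]
      have h5 : ∑ b ∈ B, p x b = ∑ a ∈ B.erase x, p x a := by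
        rw [h3 x, hl x, zero_add]
      omega
    refine ⟨B.erase x, ?_, ?_⟩
    · intro u hu v hv
      by_contra hne
      have nuv : u ≠ v := fun e => hne (by rw [e, hl])
      have h1 : ∑ a ∈ ({u, v} : Finset V), ∑ b ∈ B.erase x, p a b ≤
          ∑ a ∈ B.erase x, ∑ b ∈ B.erase x, p a b := by
        refine sum_le_sum_of_subset ?_
        intro w hw
        rw [mem_insert, mem_singleton] at hw
        rcases hw with rfl | rfl
        · exact hu
        · exact hv
      rw [Finset.sum_pair nuv] at h1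
      have h2 := single_le_sum (f := fun b => p u b) (fun _ _ => Nat.zero_le _) hv
      have h3 := single_le_sum (f := fun b => p v b) (fun _ _ => Nat.zero_le _) hu
      have h4 : p u v ≤ ∑ b ∈ B.erase x, p u b := h2
      have h5 : p v u ≤ ∑ b ∈ B.erase x, p v b := h3
      rw [hs v u] at h5
      omega
    · rw [card_erase_of_mem hx]
      have := card_pos.2 ⟨x, hx⟩
      omega

theorem cover_of_sides (hp : RGraph 3 p) (c : V → Bool)
    (h6 : ∑ a, ∑ b, (if c a = c b then p a b else 0) ≤ 6) : Cover 2 3 p := by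
  have key : ∀ A B : Finset V, Disjoint A B → (∀ x, x ∈ A ∨ x ∈ B) →
      ∑ a ∈ A, ∑ b ∈ A, p a b + ∑ a ∈ B, ∑ b ∈ B, p a b ≤ 6 → Cover 2 3 p := by
    intro A B hd hall h
    rcases le_total B.card A.card with hle | hle
    · obtain ⟨Z, h1, h2⟩ := stable_of_sides hp hd hall hle h
      exact cover_main _ V rfl p hp Z h1 h2
    · obtain ⟨Z, h1, h2⟩ := stable_of_sides hp hd.symm (fun x => (hall x).symm) hle (by omega)
      exact cover_main _ V rfl p hp Z h1 h2
  have hmono : ∀ t : Bool, ∑ a ∈ univ.filter (fun x => c x = t), ∑ b ∈ univ.filter (fun x => c x = t),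
      p a b = ∑ a ∈ univ.filter (fun x => c x = t), ∑ b, (if c a = c b then p a b else 0) := by
    intro t
    refine sum_congr rfl fun a ha => ?_
    rw [mem_filter] at ha
    rw [sum_filter]
    refine sum_congr rfl fun b _ => ?_
    rw [ha.2]
    by_cases hb : c b = t
    · rw [if_pos hb, if_pos hb.symm]
    · rw [if_neg hb, if_neg (fun h => hb h.symm)]
  refine key (univ.filter fun x => c x = true) (univ.filter fun x => c x = false) ?_ ?_ ?_
  · rw [disjoint_left]
    intro x h1 h2
    rw [mem_filter] at h1 h2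
    rw [h1.2] at h2
    exact absurd h2.2 (by decide)
  · intro x
    rcases hcx : c x with _ | _
    · exact Or.inr (by simp [hcx])
    · exact Or.inl (by simp [hcx])
  · rw [hmono true, hmono false, ← sum_union]
    · have : (univ.filter fun x => c x = true) ∪ (univ.filter fun x => c x = false) =
          (univ : Finset V) := by
        ext x
        simp only [mem_union, mem_filter, mem_univ, true_and, iff_true]
        rcases hcx : c x with _ | _
        · exact Or.inr rfl
        · exact Or.inl rfl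
      rw [this]
      exact h6
    · rw [disjoint_left]
      intro x h1 h2
      rw [mem_filter] at h1 h2
      rw [h1.2] at h2
      exact absurd h2.2 (by decide)

end

/-- the multigraph form -/
theorem mcover_sides {n m : ℕ} (ends : Fin m → Sym2 (Fin n)) (hG : MGraph 3 ends)
    (T : Finset (Fin m)) (hT : T.card ≤ 3) (c : Fin n → Bool)
    (hc : ∀ e, e ∉ T → ∀ u v, ends e = s(u, v) → c u ≠ c v) : MCover 2 3 ends := by
  classical
  obtain ⟨hp, _⟩ := toR 3 n m ends hG
  rw [coverIff 2 3 n m ends hG]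
  refine cover_of_sides hp c ?_
  have h1 : ∀ u v : Fin n, (if c u = c v then mult ends u v else 0) =
      ∑ e ∈ T, if ends e = s(u, v) ∧ c u = c v then 1 else 0 := by
    intro u v
    by_cases huv : c u = c v
    · rw [if_pos huv]
      unfold mult
      rw [card_filter]
      have h2 : ∑ e ∈ T, (if ends e = s(u, v) ∧ c u = c v then 1 else 0) =
          ∑ e ∈ T, (if ends e = s(u, v) then 1 else 0) :=
        sum_congr rfl fun e _ => by simp [huv]
      rw [h2]
      symm
      refine sum_subset (subset_univ T) fun e _ he => ?_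
      rw [if_neg]
      intro h3
      exact hc e he u v h3 huv
    · rw [if_neg huv]
      symm
      exact sum_eq_zero fun e _ => by simp [huv]
  simp only [h1]
  have h2 : ∑ a, ∑ b, ∑ e ∈ T, (if ends e = s(a, b) ∧ c a = c b then 1 else 0) =
      ∑ e ∈ T, ∑ a, ∑ b, (if ends e = s(a, b) ∧ c a = c b then 1 else 0) := by
    rw [sum_congr rfl fun a _ => sum_comm, sum_comm]
  rw [h2]
  have h3 : ∀ e ∈ T, ∑ a, ∑ b, (if ends e = s(a, b) ∧ c a = c b then 1 else 0) ≤ 2 := by
    intro e _
    induction he : ends e using Sym2.inductionOn with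
    | hf x y =>
      rw [← Fintype.sum_prod_type' (f := fun a b => if s(x, y) = s(a, b) ∧ c a = c b then 1 else 0),
        ← card_filter]
      have h4 : (univ.filter fun q : Fin n × Fin n => s(x, y) = s(q.1, q.2) ∧ c q.1 = c q.2) ⊆
          {(x, y), (y, x)} := by
        intro q hq
        rw [mem_filter] at hq
        rw [mem_insert, mem_singleton]
        rcases Sym2.eq_iff.1 hq.2.1 with ⟨h5, h6⟩ | ⟨h5, h6⟩
        · left
          rw [h5, h6]
        · right
          rw [h5, h6]
      exact (card_le_card h4).trans card_le_two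
  calc ∑ e ∈ T, ∑ a, ∑ b, (if ends e = s(a, b) ∧ c a = c b then 1 else 0)
      ≤ ∑ e ∈ T, 2 := sum_le_sum h3
    _ = T.card * 2 := by rw [sum_const, smul_eq_mul]
    _ ≤ 6 := by omega

/-- the multigraph form with a stable set -/
theorem mcover_stable {n m : ℕ} (ends : Fin m → Sym2 (Fin n)) (hG : MGraph 3 ends)
    (Z : Finset (Fin n)) (hZ : ∀ e u v, ends e = s(u, v) → u ∈ Z → v ∉ Z)
    (hc : n ≤ 2 * Z.card + 2) : MCover 2 3 ends := by
  obtain ⟨hp, _⟩ := toR 3 n m ends hG
  rw [coverIff 2 3 n m ends hG]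
  refine cover_main _ (Fin n) rfl _ hp Z ?_ (by simpa using hc)
  intro u hu v hv
  unfold mult
  rw [Finset.card_eq_zero, Finset.filter_eq_empty_iff]
  intro e _ he
  exact hZ e u v he hu hv

end Pool.Agent.TH435.BF
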