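import Pool.Agent.TH435.BF.Cap

/-!
# Uncrossing
-/

set_option autoImplicit false

namespace Pool.Agent.TH435.BF

open Finset H840R6

variable {V : Type} [Fintype V] [DecidableEq V]

variable {p : V → V → ℕ} {A B : Finset V} {x₁ y₁ x₂ y₂ u v : V}

/-- the rest -/
def rst (p F : V → V → ℕ) : V → V → ℕ := fun a b => 2 * p a b - F a b

omit [Fintype V] in
theorem E_rst {F : V → V → ℕ} (hF : ∀ a ∈ A, ∀ b ∈ B, F a b ≤ 2 * p a b) (R Q : Finset V) :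
    E A B (rst p F) R Q + E A B F R Q = 2 * E A B p R Q := by
  unfold E rst
  rw [mul_sum, ← sum_add_distrib]
  refine sum_congr rfl fun a ha => ?_
  rw [mul_sum, ← sum_add_distrib]
  refine sum_congr rfl fun b hb => ?_
  have := hF a ha b hb
  split_ifs <;> omega

/-- a flow -/
structure Fl (p : V → V → ℕ) (A B : Finset V) (u v : V) (F : V → V → ℕ) : Prop where
  le : ∀ a ∈ A, ∀ b ∈ B, F a b ≤ 2 * p a b
  row : ∀ a ∈ A, ∑ b ∈ B, F a b + ((if a = u then 2 else 0) + (if a = v then 2 else 0)) = 2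
  col : ∀ b ∈ B, ∑ a ∈ A, F a b = 2

namespace Core

theorem balG (h : Core p A B x₁ y₁ x₂ y₂ u v) {F : V → V → ℕ} (hF : Fl p A B u v F)
    (X : Finset V) :
    up A B (rst p F) X + 4 * nn A X = dn A B (rst p F) X +
      2 * (ii x₁ X + ii y₁ X + ii x₂ X + ii y₂ X) + 4 * nn B X := by
  have h1 := h.balp X
  have h2 := bal hF.row hF.col X
  rw [wt_add, wt_single A h.hu 2, wt_single A h.hv 2] at h2
  have h3 : up A B (rst p F) X + up A B F X = 2 * up A B p X := E_rst hF.le _ _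
  have h4 : dn A B (rst p F) X + dn A B F X = 2 * dn A B p X := E_rst hF.le _ _
  omega

end Core

/-- `X` separates the two pairs -/
def Sp (x₁ y₁ x₂ y₂ : V) (X : Finset V) : Prop :=
  (ii x₁ X = 1 ∧ ii y₁ X = 1 ∧ ii x₂ X = 0 ∧ ii y₂ X = 0) ∨
  (ii x₁ X = 0 ∧ ii y₁ X = 0 ∧ ii x₂ X = 1 ∧ ii y₂ X = 1)

/-- violated sets -/
def Viol (p : V → V → ℕ) (A B : Finset V) (x₁ y₁ x₂ y₂ : V) (F : V → V → ℕ) (X : Finset V) :
    Prop :=
  nn A X = nn B X + 1 ∧ up A B (rst p F) X ≤ 1 ∧ Sp x₁ y₁ x₂ y₂ X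

namespace Core

theorem viol_dn (h : Core p A B x₁ y₁ x₂ y₂ u v) {F : V → V → ℕ} (hF : Fl p A B u v F)
    {X : Finset V} (hX : Viol p A B x₁ y₁ x₂ y₂ F X) :
    dn A B (rst p F) X = up A B (rst p F) X := by
  have h1 := h.balG hF X
  obtain ⟨h2, h3, h4⟩ := hX
  rcases h4 with h4 | h4 <;> omega

theorem viol_compl (h : Core p A B x₁ y₁ x₂ y₂ u v) {F : V → V → ℕ} (hF : Fl p A B u v F)
    {X : Finset V} (hX : Viol p A B x₁ y₁ x₂ y₂ F X) : Viol p A B x₁ y₁ x₂ y₂ F Xᶜ := by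
  have h1 := h.viol_dn hF hX
  have h2 := nn_compl A X
  have h3 := nn_compl B X
  have h4 := h.card
  have e1 := ii_compl x₁ X
  have e2 := ii_compl y₁ X
  have e3 := ii_compl x₂ X
  have e4 := ii_compl y₂ X
  obtain ⟨h5, h6, h7⟩ := hX
  refine ⟨by omega, ?_, ?_⟩
  · rw [up_compl, h1]; exact h6
  · rcases h7 with h7 | h7
    · exact Or.inr ⟨by omega, by omega, by omega, by omega⟩
    · exact Or.inl ⟨by omega, by omega, by omega, by omega⟩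

/-- lower bound for the number of boundary edges of a separating set -/
theorem up_lower (h : Core p A B x₁ y₁ x₂ y₂ u v) {X : Finset V} (h1 : nn A X = nn B X + 1)
    (h2 : Sp x₁ y₁ x₂ y₂ X) : 2 ≤ up A B p X ∧ (ii u X = 1 → ii v X = 1 → 3 ≤ up A B p X) := by
  obtain ⟨f1, f2, f3, f4, f5, f6, f7, f8⟩ := h.facts X
  have hc := h.card
  have c3 := cr_cases u v X
  have h3 : cr x₁ y₁ X = 0 ∧ cr x₂ y₂ X = 0 ∧ ii x₁ X + ii y₁ X + ii x₂ X + ii y₂ X = 2 := by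
    have c1 := cr_cases x₁ y₁ X
    have c2 := cr_cases x₂ y₂ X
    rcases h2 with h2 | h2
    · refine ⟨?_, ?_, by omega⟩
      · rcases c1 with c | c | c | c <;> omega
      · rcases c2 with c | c | c | c <;> omega
    · refine ⟨?_, ?_, by omega⟩
      · rcases c1 with c | c | c | c <;> omega
      · rcases c2 with c | c | c | c <;> omega
  obtain ⟨h4, h5, h6⟩ := h3
  have h7 := ii_le u X
  have h8 := ii_le v X
  clear f6 f8 h2
  have h9 := f7 (by clear f7 c3; omega) (by clear f7 c3; omega) (by clear f7 c3; omega)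
  clear f7
  rcases c3 with c | c | c | c
  · refine ⟨by omega, fun _ _ => by omega⟩
  · refine ⟨by omega, fun _ _ => by omega⟩
  · refine ⟨by omega, fun _ _ => by omega⟩
  · refine ⟨by omega, fun _ _ => by omega⟩

/-- no violated set contains `X'` -/
theorem no_super (h : Core p A B x₁ y₁ x₂ y₂ u v) {F : V → V → ℕ} (hF : Fl p A B u v F)
    {X' : Finset V} (hD : D1 p A B u v X')
    (hup : ∀ X, X' ⊆ X → up A B F X ≤ up A B p X + 1) {X : Finset V} (hX : X' ⊆ X)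
    (hv : Viol p A B x₁ y₁ x₂ y₂ F X) : False := by
  have h1 := (h.up_lower hv.1 hv.2.2).2 (ii_of (hX (ii_one hD.1))) (ii_of (hX (ii_one hD.2.1)))
  have h2 := hup X hX
  have h3 : up A B (rst p F) X + up A B F X = 2 * up A B p X := E_rst hF.le _ _
  have h4 := hv.2.1
  omega

end Core

omit [Fintype V] in
/-- indicator facts for the four sets made from `X` and `Y` -/
theorem ii_four (x : V) (X Y : Finset V) :
    (ii x X = 0 ∧ ii x Y = 0 ∧ ii x (X ∪ Y) = 0 ∧ ii x (X ∩ Y) = 0 ∧ ii x (X \ Y) = 0 ∧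
      ii x (Y \ X) = 0) ∨
    (ii x X = 1 ∧ ii x Y = 0 ∧ ii x (X ∪ Y) = 1 ∧ ii x (X ∩ Y) = 0 ∧ ii x (X \ Y) = 1 ∧
      ii x (Y \ X) = 0) ∨
    (ii x X = 0 ∧ ii x Y = 1 ∧ ii x (X ∪ Y) = 1 ∧ ii x (X ∩ Y) = 0 ∧ ii x (X \ Y) = 0 ∧
      ii x (Y \ X) = 1) ∨
    (ii x X = 1 ∧ ii x Y = 1 ∧ ii x (X ∪ Y) = 1 ∧ ii x (X ∩ Y) = 1 ∧ ii x (X \ Y) = 0 ∧
      ii x (Y \ X) = 0) := by
  unfold ii
  by_cases h1 : x ∈ X <;> by_cases h2 : x ∈ Y <;> simp [h1, h2]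

omit [Fintype V] in
theorem ii_00 {x : V} {X Y : Finset V} (h1 : ii x X = 0) (h2 : ii x Y = 0) :
    ii x (X ∪ Y) = 0 ∧ ii x (X ∩ Y) = 0 ∧ ii x (X \ Y) = 0 ∧ ii x (Y \ X) = 0 := by
  rcases ii_four x X Y with h | h | h | h <;> omega

omit [Fintype V] in
theorem ii_10 {x : V} {X Y : Finset V} (h1 : ii x X = 1) (h2 : ii x Y = 0) :
    ii x (X ∪ Y) = 1 ∧ ii x (X ∩ Y) = 0 ∧ ii x (X \ Y) = 1 ∧ ii x (Y \ X) = 0 := by
  rcases ii_four x X Y with h | h | h | h <;> omega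

omit [Fintype V] in
theorem ii_01 {x : V} {X Y : Finset V} (h1 : ii x X = 0) (h2 : ii x Y = 1) :
    ii x (X ∪ Y) = 1 ∧ ii x (X ∩ Y) = 0 ∧ ii x (X \ Y) = 0 ∧ ii x (Y \ X) = 1 := by
  rcases ii_four x X Y with h | h | h | h <;> omega

omit [Fintype V] in
theorem ii_11 {x : V} {X Y : Finset V} (h1 : ii x X = 1) (h2 : ii x Y = 1) :
    ii x (X ∪ Y) = 1 ∧ ii x (X ∩ Y) = 1 ∧ ii x (X \ Y) = 0 ∧ ii x (Y \ X) = 0 := by
  rcases ii_four x X Y with h | h | h | h <;> omega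

/-- all inequalities between the four sets -/
theorem four (A B : Finset V) (q : V → V → ℕ) (X Y : Finset V) :
    up A B q (X ∪ Y) + up A B q (X ∩ Y) ≤ up A B q X + up A B q Y ∧
    dn A B q (X ∪ Y) + dn A B q (X ∩ Y) ≤ dn A B q X + dn A B q Y ∧
    up A B q (X \ Y) + dn A B q (Y \ X) ≤ up A B q X + dn A B q Y ∧
    up A B q (Y \ X) + dn A B q (X \ Y) ≤ up A B q Y + dn A B q X ∧
    nn A (X ∪ Y) + nn A (X ∩ Y) = nn A X + nn A Y ∧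
    nn B (X ∪ Y) + nn B (X ∩ Y) = nn B X + nn B Y ∧
    nn A (X \ Y) + nn A (X ∩ Y) = nn A X ∧ nn B (X \ Y) + nn B (X ∩ Y) = nn B X ∧
    nn A (Y \ X) + nn A (X ∩ Y) = nn A Y ∧ nn B (Y \ X) + nn B (X ∩ Y) = nn B Y := by
  refine ⟨up_submod A B q X Y, dn_submod A B q X Y, posimod A B q X Y, posimod A B q Y X,
    nn_mod A X Y, nn_mod B X Y, nn_sdiff A X Y, nn_sdiff B X Y, ?_, ?_⟩
  · rw [inter_comm X Y]; exact nn_sdiff A Y X
  · rw [inter_comm X Y]; exact nn_sdiff B Y X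

/-- the edges leaving `X'` from `A` -/
theorem three_aux {F : V → V → ℕ} (hF : Fl p A B u v F) {X' : Finset V} (hdn : dn A B F X' = 0)
    (X : Finset V) :
    2 * E A B p (X ∩ X') X'ᶜ ≤ dn A B (rst p F) (X ∩ X') ∧
    2 * E A B p (X' \ X) X'ᶜ ≤ dn A B (rst p F) (X' \ X) ∧
    E A B p (X ∩ X') X'ᶜ + E A B p (X' \ X) X'ᶜ = dn A B p X' := by
  have key : ∀ R : Finset V, R ⊆ X' → 2 * E A B p R X'ᶜ ≤ dn A B (rst p F) R := by
    intro R hR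
    have h1 := E_rst hF.le R X'ᶜ
    have h2 : E A B F R X'ᶜ ≤ dn A B F X' := E_mono A B F hR (Subset.refl _)
    have h3 : E A B (rst p F) R X'ᶜ ≤ dn A B (rst p F) R := by
      refine E_mono A B _ (Subset.refl _) ?_
      intro z hz
      rw [mem_compl] at hz ⊢
      exact fun h' => hz (hR h')
    omega
  refine ⟨key _ inter_subset_right, key _ sdiff_subset, ?_⟩
  rw [← E_union_left]
  · unfold dn
    congr 1
    ext z
    simp only [mem_union, mem_inter, mem_sdiff]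
    tauto
  · rw [disjoint_left]
    intro z h1 h2
    exact (mem_sdiff.1 h2).2 (mem_inter.1 h1).1

namespace Core

theorem uncross (h : Core p A B x₁ y₁ x₂ y₂ u v) {F : V → V → ℕ} (hF : Fl p A B u v F)
    {X' : Finset V} (hD : D1 p A B u v X') (hdn : dn A B F X' = 0)
    (hup : up A B F X' = up A B p X' + 1) {X : Finset V}
    (hv : Viol p A B x₁ y₁ x₂ y₂ F X) :
    Viol p A B x₁ y₁ x₂ y₂ F (X ∪ X') ∨ Viol p A B x₁ y₁ x₂ y₂ F (X \ X') := by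
  have g1 := h.defect_eq X' hD.1 hD.2.1 hD.2.2
  obtain ⟨s1, s2, s3, s4, m1, m2, m3, m4, m5, m6⟩ := four A B (rst p F) X X'
  have bU := h.balG hF (X ∪ X')
  have bI := h.balG hF (X ∩ X')
  have bP := h.balG hF (X \ X')
  have bQ := h.balG hF (X' \ X)
  have b1 := h.viol_dn hF hv
  have zu : up A B (rst p F) X' + up A B F X' = 2 * up A B p X' := E_rst hF.le _ _
  have zd : dn A B (rst p F) X' + dn A B F X' = 2 * dn A B p X' := E_rst hF.le _ _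
  obtain ⟨v1, v2, v3⟩ := hv
  have lx₁ := ii_le x₁ X'
  have ly₁ := ii_le y₁ X'
  have lx₂ := ii_le x₂ X'
  have ly₂ := ii_le y₂ X'
  rcases g1 with ⟨g1, g2, g3, g4⟩ | ⟨g1, g2, g3⟩
  · -- type I
    have z1 : ii x₁ X' = 0 := by omega
    have z2 : ii y₁ X' = 0 := by omega
    have z3 : ii x₂ X' = 0 := by omega
    have z4 : ii y₂ X' = 0 := by omega
    rcases v3 with ⟨w1, w2, w3, w4⟩ | ⟨w1, w2, w3, w4⟩
    · obtain ⟨q1, q2, q3, q4⟩ := ii_10 w1 z1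
      obtain ⟨q5, q6, q7, q8⟩ := ii_10 w2 z2
      obtain ⟨q9, q10, q11, q12⟩ := ii_00 w3 z3
      obtain ⟨q13, q14, q15, q16⟩ := ii_00 w4 z4
      have hor : (nn A (X ∪ X') = nn B (X ∪ X') + 1 ∧ up A B (rst p F) (X ∪ X') ≤ 1) ∨
          (nn A (X \ X') = nn B (X \ X') + 1 ∧ up A B (rst p F) (X \ X') ≤ 1) := by omega
      rcases hor with hor | hor
      · exact Or.inl ⟨hor.1, hor.2, Or.inl ⟨q1, q5, q9, q13⟩⟩
      · exact Or.inr ⟨hor.1, hor.2, Or.inl ⟨q3, q7, q11, q15⟩⟩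
    · obtain ⟨q1, q2, q3, q4⟩ := ii_00 w1 z1
      obtain ⟨q5, q6, q7, q8⟩ := ii_00 w2 z2
      obtain ⟨q9, q10, q11, q12⟩ := ii_10 w3 z3
      obtain ⟨q13, q14, q15, q16⟩ := ii_10 w4 z4
      have hor : (nn A (X ∪ X') = nn B (X ∪ X') + 1 ∧ up A B (rst p F) (X ∪ X') ≤ 1) ∨
          (nn A (X \ X') = nn B (X \ X') + 1 ∧ up A B (rst p F) (X \ X') ≤ 1) := by omega
      rcases hor with hor | hor
      · exact Or.inl ⟨hor.1, hor.2, Or.inr ⟨q1, q5, q9, q13⟩⟩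
      · exact Or.inr ⟨hor.1, hor.2, Or.inr ⟨q3, q7, q11, q15⟩⟩
  · -- types II and III
    have hcase : (dn A B p X' = 1 ∧ ii x₁ X' = 0 ∧ ii y₁ X' = 0 ∧ ii x₂ X' = 0 ∧ ii y₂ X' = 0) ∨
        (dn A B p X' = 0 ∧ ii x₁ X' = 1 ∧ ii y₁ X' = 0 ∧ ii x₂ X' = 0 ∧ ii y₂ X' = 0) ∨
        (dn A B p X' = 0 ∧ ii x₁ X' = 0 ∧ ii y₁ X' = 1 ∧ ii x₂ X' = 0 ∧ ii y₂ X' = 0) ∨
        (dn A B p X' = 0 ∧ ii x₁ X' = 0 ∧ ii y₁ X' = 0 ∧ ii x₂ X' = 1 ∧ ii y₂ X' = 0) ∨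
        (dn A B p X' = 0 ∧ ii x₁ X' = 0 ∧ ii y₁ X' = 0 ∧ ii x₂ X' = 0 ∧ ii y₂ X' = 1) := by
      clear s1 s2 s3 s4 m1 m2 m3 m4 m5 m6 bU bI bP bQ b1 v1 v2 v3 zu zd
      omega
    rcases hcase with ⟨g4, z1, z2, z3, z4⟩ | ⟨g4, z1, z2, z3, z4⟩ | ⟨g4, z1, z2, z3, z4⟩ |
      ⟨g4, z1, z2, z3, z4⟩ | ⟨g4, z1, z2, z3, z4⟩
    · -- type III
      obtain ⟨t1, t2, t3⟩ := three_aux hF hdn X
      rcases v3 with ⟨w1, w2, w3, w4⟩ | ⟨w1, w2, w3, w4⟩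
      · obtain ⟨q1, q2, q3, q4⟩ := ii_10 w1 z1
        obtain ⟨q5, q6, q7, q8⟩ := ii_10 w2 z2
        obtain ⟨q9, q10, q11, q12⟩ := ii_00 w3 z3
        obtain ⟨q13, q14, q15, q16⟩ := ii_00 w4 z4
        have hor : (nn A (X ∪ X') = nn B (X ∪ X') + 1 ∧ up A B (rst p F) (X ∪ X') ≤ 1) ∨
            (nn A (X \ X') = nn B (X \ X') + 1 ∧ up A B (rst p F) (X \ X') ≤ 1) := by omega
        rcases hor with hor | hor
        · exact Or.inl ⟨hor.1, hor.2, Or.inl ⟨q1, q5, q9, q13⟩⟩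
        · exact Or.inr ⟨hor.1, hor.2, Or.inl ⟨q3, q7, q11, q15⟩⟩
      · obtain ⟨q1, q2, q3, q4⟩ := ii_00 w1 z1
        obtain ⟨q5, q6, q7, q8⟩ := ii_00 w2 z2
        obtain ⟨q9, q10, q11, q12⟩ := ii_10 w3 z3
        obtain ⟨q13, q14, q15, q16⟩ := ii_10 w4 z4
        have hor : (nn A (X ∪ X') = nn B (X ∪ X') + 1 ∧ up A B (rst p F) (X ∪ X') ≤ 1) ∨
            (nn A (X \ X') = nn B (X \ X') + 1 ∧ up A B (rst p F) (X \ X') ≤ 1) := by omega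
        rcases hor with hor | hor
        · exact Or.inl ⟨hor.1, hor.2, Or.inr ⟨q1, q5, q9, q13⟩⟩
        · exact Or.inr ⟨hor.1, hor.2, Or.inr ⟨q3, q7, q11, q15⟩⟩
    · -- type II
      rcases v3 with ⟨w1, w2, w3, w4⟩ | ⟨w1, w2, w3, w4⟩
      · obtain ⟨q1, q2, q3, q4⟩ := ii_11 w1 z1
        obtain ⟨q5, q6, q7, q8⟩ := ii_10 w2 z2
        obtain ⟨q9, q10, q11, q12⟩ := ii_00 w3 z3
        obtain ⟨q13, q14, q15, q16⟩ := ii_00 w4 z4
        have hor : nn A (X ∪ X') = nn B (X ∪ X') + 1 ∧ up A B (rst p F) (X ∪ X') ≤ 1 := by omega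
        exact Or.inl ⟨hor.1, hor.2, Or.inl ⟨q1, q5, q9, q13⟩⟩
      · obtain ⟨q1, q2, q3, q4⟩ := ii_01 w1 z1
        obtain ⟨q5, q6, q7, q8⟩ := ii_00 w2 z2
        obtain ⟨q9, q10, q11, q12⟩ := ii_10 w3 z3
        obtain ⟨q13, q14, q15, q16⟩ := ii_10 w4 z4
        have hor : nn A (X \ X') = nn B (X \ X') + 1 ∧ up A B (rst p F) (X \ X') ≤ 1 := by omega
        exact Or.inr ⟨hor.1, hor.2, Or.inr ⟨q3, q7, q11, q15⟩⟩
    · -- type II
      rcases v3 with ⟨w1, w2, w3, w4⟩ | ⟨w1, w2, w3, w4⟩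
      · obtain ⟨q1, q2, q3, q4⟩ := ii_10 w1 z1
        obtain ⟨q5, q6, q7, q8⟩ := ii_11 w2 z2
        obtain ⟨q9, q10, q11, q12⟩ := ii_00 w3 z3
        obtain ⟨q13, q14, q15, q16⟩ := ii_00 w4 z4
        have hor : nn A (X ∪ X') = nn B (X ∪ X') + 1 ∧ up A B (rst p F) (X ∪ X') ≤ 1 := by omega
        exact Or.inl ⟨hor.1, hor.2, Or.inl ⟨q1, q5, q9, q13⟩⟩
      · obtain ⟨q1, q2, q3, q4⟩ := ii_00 w1 z1
        obtain ⟨q5, q6, q7, q8⟩ := ii_01 w2 z2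
        obtain ⟨q9, q10, q11, q12⟩ := ii_10 w3 z3
        obtain ⟨q13, q14, q15, q16⟩ := ii_10 w4 z4
        have hor : nn A (X \ X') = nn B (X \ X') + 1 ∧ up A B (rst p F) (X \ X') ≤ 1 := by omega
        exact Or.inr ⟨hor.1, hor.2, Or.inr ⟨q3, q7, q11, q15⟩⟩
    · -- type II
      rcases v3 with ⟨w1, w2, w3, w4⟩ | ⟨w1, w2, w3, w4⟩
      · obtain ⟨q1, q2, q3, q4⟩ := ii_10 w1 z1
        obtain ⟨q5, q6, q7, q8⟩ := ii_10 w2 z2
        obtain ⟨q9, q10, q11, q12⟩ := ii_01 w3 z3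
        obtain ⟨q13, q14, q15, q16⟩ := ii_00 w4 z4
        have hor : nn A (X \ X') = nn B (X \ X') + 1 ∧ up A B (rst p F) (X \ X') ≤ 1 := by omega
        exact Or.inr ⟨hor.1, hor.2, Or.inl ⟨q3, q7, q11, q15⟩⟩
      · obtain ⟨q1, q2, q3, q4⟩ := ii_00 w1 z1
        obtain ⟨q5, q6, q7, q8⟩ := ii_00 w2 z2
        obtain ⟨q9, q10, q11, q12⟩ := ii_11 w3 z3
        obtain ⟨q13, q14, q15, q16⟩ := ii_10 w4 z4
        have hor : nn A (X ∪ X') = nn B (X ∪ X') + 1 ∧ up A B (rst p F) (X ∪ X') ≤ 1 := by omega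
        exact Or.inl ⟨hor.1, hor.2, Or.inr ⟨q1, q5, q9, q13⟩⟩
    · -- type II
      rcases v3 with ⟨w1, w2, w3, w4⟩ | ⟨w1, w2, w3, w4⟩
      · obtain ⟨q1, q2, q3, q4⟩ := ii_10 w1 z1
        obtain ⟨q5, q6, q7, q8⟩ := ii_10 w2 z2
        obtain ⟨q9, q10, q11, q12⟩ := ii_00 w3 z3
        obtain ⟨q13, q14, q15, q16⟩ := ii_01 w4 z4
        have hor : nn A (X \ X') = nn B (X \ X') + 1 ∧ up A B (rst p F) (X \ X') ≤ 1 := by omega
        exact Or.inr ⟨hor.1, hor.2, Or.inl ⟨q3, q7, q11, q15⟩⟩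
      · obtain ⟨q1, q2, q3, q4⟩ := ii_00 w1 z1
        obtain ⟨q5, q6, q7, q8⟩ := ii_00 w2 z2
        obtain ⟨q9, q10, q11, q12⟩ := ii_10 w3 z3
        obtain ⟨q13, q14, q15, q16⟩ := ii_11 w4 z4
        have hor : nn A (X ∪ X') = nn B (X ∪ X') + 1 ∧ up A B (rst p F) (X ∪ X') ≤ 1 := by omega
        exact Or.inl ⟨hor.1, hor.2, Or.inr ⟨q1, q5, q9, q13⟩⟩

end Core

end Pool.Agent.TH435.BF
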